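import Pool.Agent.Helper30.Bishop.Past

set_option autoImplicit false

open MeasureTheory Filter Topology
open scoped ENNReal

namespace Pool.Agent.Helper30.Bishop

variable {Ω : Type*} [m0 : MeasurableSpace Ω] {T : Ω → Ω} {μ : Measure Ω}

omit m0 in
/-- First visit time of a set. -/
noncomputable def hit (T : Ω → Ω) (B : Set Ω) (x : Ω) : ℕ := sInf {n | T^[n] x ∈ B}

/-- Sum of `φ` along the orbit up to the first visit of `B`. -/
noncomputable def blockSum (T : Ω → Ω) (φ : Ω → ℝ) (B : Set Ω) (x : Ω) : ℝ :=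
  ∑ t ∈ Finset.range (hit T B x), φ (T^[t] x)

/-- The remainder of the block sum modulo `δ`. -/
noncomputable def rho (T : Ω → Ω) (φ : Ω → ℝ) (B : Set Ω) (δ : ℝ) (x : Ω) : ℝ :=
  δ * Int.fract (blockSum T φ B x / δ)

omit m0 in
lemma hit_of_mem {B : Set Ω} {x : Ω} (hx : x ∈ B) : hit T B x = 0 := by
  unfold hit
  exact Nat.sInf_eq_zero.2 (Or.inl hx)

omit m0 in
lemma hit_succ {B : Set Ω} {x : Ω} (hx : x ∉ B) (h : ∃ n, T^[n] x ∈ B) :
    hit T B x = hit T B (T x) + 1 := by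
  unfold hit
  have h1 : 1 ≤ sInf {n | T^[n] x ∈ B} := by
    rw [Nat.one_le_iff_ne_zero]
    intro h0
    rcases Nat.sInf_eq_zero.1 h0 with h2 | h2
    · exact hx h2
    · obtain ⟨n, hn⟩ := h
      have : n ∈ ({n | T^[n] x ∈ B} : Set ℕ) := hn
      rw [h2] at this
      exact this
  have := Nat.sInf_add (p := fun n => T^[n] x ∈ B) h1
  rw [← this]
  simp only [Function.iterate_succ_apply]

omit m0 in
lemma blockSum_of_mem {B : Set Ω} {x : Ω} (φ : Ω → ℝ) (hx : x ∈ B) : blockSum T φ B x = 0 := by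
  unfold blockSum
  rw [hit_of_mem hx]; simp

omit m0 in
lemma blockSum_succ {B : Set Ω} {x : Ω} (φ : Ω → ℝ) (hx : x ∉ B) (h : ∃ n, T^[n] x ∈ B) :
    blockSum T φ B x = φ x + blockSum T φ B (T x) := by
  unfold blockSum
  rw [hit_succ hx h, Finset.sum_range_succ']
  simp only [Function.iterate_succ_apply, Function.iterate_zero_apply]
  ring

omit m0 in
lemma rho_of_mem {B : Set Ω} {x : Ω} (φ : Ω → ℝ) (δ : ℝ) (hx : x ∈ B) : rho T φ B δ x = 0 := by
  unfold rho
  rw [blockSum_of_mem φ hx]; simp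

omit m0 in
lemma rho_nonneg (B : Set Ω) (x : Ω) (φ : Ω → ℝ) {δ : ℝ} (hδ : 0 < δ) : 0 ≤ rho T φ B δ x :=
  mul_nonneg hδ.le (Int.fract_nonneg _)

omit m0 in
lemma rho_lt (B : Set Ω) (x : Ω) (φ : Ω → ℝ) {δ : ℝ} (hδ : 0 < δ) : rho T φ B δ x < δ := by
  unfold rho
  have := Int.fract_lt_one (blockSum T φ B x / δ)
  nlinarith

omit m0 in
lemma rho_eq (B : Set Ω) (x : Ω) (φ : Ω → ℝ) {δ : ℝ} (hδ : 0 < δ) :
    rho T φ B δ x = blockSum T φ B x - δ * ⌊blockSum T φ B x / δ⌋ := by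
  unfold rho
  rw [Int.fract]
  field_simp

lemma measurable_hit (hT : Measurable T) {B : Set Ω} (hB : MeasurableSet B) :
    Measurable (hit T B) := by
  refine measurable_to_countable' fun n => ?_
  have hset : hit T B ⁻¹' {n} =
      ({x | T^[n] x ∈ B} ∩ ⋂ m ∈ Finset.range n, {x | T^[m] x ∉ B}) ∪
      ({x | n = 0} ∩ ⋂ m : ℕ, {x | T^[m] x ∉ B}) := by
    ext x
    simp only [Set.mem_preimage, Set.mem_singleton_iff, Set.mem_union, Set.mem_inter_iff,
      Set.mem_iInter, Set.mem_ofPred_eq, Finset.mem_range]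
    constructor
    · intro h
      by_cases hex : ∃ m, T^[m] x ∈ B
      · left
        have h1 : sInf {m | T^[m] x ∈ B} ∈ {m | T^[m] x ∈ B} := Nat.sInf_mem hex
        have h2 : sInf {m | T^[m] x ∈ B} = n := h
        rw [h2] at h1
        refine ⟨h1, fun m hm hmB => ?_⟩
        have : sInf {m | T^[m] x ∈ B} ≤ m := Nat.sInf_le hmB
        omega
      · right
        push Not at hex
        refine ⟨?_, hex⟩
        have h2 : sInf {m | T^[m] x ∈ B} = n := h
        rw [← h2]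
        exact Nat.sInf_eq_zero.2 (Or.inr (by ext m; simpa using hex m))
    · rintro (⟨h1, h2⟩ | ⟨h1, h2⟩)
      · have h3 : sInf {m | T^[m] x ∈ B} ≤ n := Nat.sInf_le h1
        have h4 : T^[sInf {m | T^[m] x ∈ B}] x ∈ B := Nat.sInf_mem (s := {m | T^[m] x ∈ B}) ⟨n, h1⟩
        rcases h3.lt_or_eq with h5 | h5
        · exact absurd h4 (h2 _ h5)
        · exact h5
      · rw [h1]
        exact Nat.sInf_eq_zero.2 (Or.inr (by ext m; simpa using h2 m))
  rw [hset]
  refine MeasurableSet.union (MeasurableSet.inter ((hT.iterate n) hB) ?_) (MeasurableSet.inter ?_ ?_)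
  · exact Finset.measurableSet_biInter _ fun m _ => ((hT.iterate m) hB.compl)
  · exact MeasurableSet.const _
  · exact MeasurableSet.iInter fun m => ((hT.iterate m) hB.compl)

lemma measurable_blockSum (hT : Measurable T) {B : Set Ω} (hB : MeasurableSet B) {φ : Ω → ℝ}
    (hφ : Measurable φ) : Measurable (blockSum T φ B) := by
  have h1 : Measurable (fun p : ℕ × Ω => ∑ t ∈ Finset.range p.1, φ (T^[t] p.2)) := by
    refine measurable_from_prod_countable_right fun n => ?_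
    have h0 : Measurable (fun y => ∑ t ∈ Finset.range n, φ (T^[t] y)) :=
      Finset.measurable_fun_sum (Finset.range n) fun t _ => hφ.comp (hT.iterate t)
    exact h0
  exact h1.comp ((measurable_hit hT hB).prodMk measurable_id)

lemma measurable_rho (hT : Measurable T) {B : Set Ω} (hB : MeasurableSet B) {φ : Ω → ℝ}
    (hφ : Measurable φ) (δ : ℝ) : Measurable (rho T φ B δ) := by
  unfold rho
  exact (((measurable_blockSum hT hB hφ).div_const δ).fract).const_mul δ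

/-- The successive corrections of the cocycle. -/
noncomputable def phi (T : Ω → Ω) (φ0 : Ω → ℝ) (B : ℕ → Set Ω) (D : ℝ) : ℕ → Ω → ℝ
  | 0 => φ0
  | (n+1) => fun x => phi T φ0 B D n x - rho T (phi T φ0 B D n) (B n) (D / 2 ^ n) x
      + rho T (phi T φ0 B D n) (B n) (D / 2 ^ n) (T x)

/-- The corrections. -/
noncomputable def corr (T : Ω → Ω) (φ0 : Ω → ℝ) (B : ℕ → Set Ω) (D : ℝ) (n : ℕ) : Ω → ℝ :=
  rho T (phi T φ0 B D n) (B n) (D / 2 ^ n)

omit m0 in
lemma phi_succ (φ0 : Ω → ℝ) (B : ℕ → Set Ω) (D : ℝ) (n : ℕ) (x : Ω) :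
    phi T φ0 B D (n+1) x = phi T φ0 B D n x - corr T φ0 B D n x + corr T φ0 B D n (T x) := rfl

lemma measurable_phi (hT : Measurable T) {B : ℕ → Set Ω} (hB : ∀ n, MeasurableSet (B n))
    {φ0 : Ω → ℝ} (hφ : Measurable φ0) (D : ℝ) (n : ℕ) : Measurable (phi T φ0 B D n) := by
  induction n with
  | zero => exact hφ
  | succ n ih =>
    have h := measurable_rho hT (hB n) ih (D / 2 ^ n)
    exact (ih.sub h).add (h.comp hT)

lemma measurable_corr (hT : Measurable T) {B : ℕ → Set Ω} (hB : ∀ n, MeasurableSet (B n))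
    {φ0 : Ω → ℝ} (hφ : Measurable φ0) (D : ℝ) (n : ℕ) : Measurable (corr T φ0 B D n) :=
  measurable_rho hT (hB n) (measurable_phi hT hB hφ D n) _

omit m0 in
lemma corr_nonneg (φ0 : Ω → ℝ) (B : ℕ → Set Ω) {D : ℝ} (hD : 0 < D) (n : ℕ) (x : Ω) :
    0 ≤ corr T φ0 B D n x := rho_nonneg _ _ _ (by positivity)

omit m0 in
lemma corr_lt (φ0 : Ω → ℝ) (B : ℕ → Set Ω) {D : ℝ} (hD : 0 < D) (n : ℕ) (x : Ω) :
    corr T φ0 B D n x < D / 2 ^ n := rho_lt _ _ _ (by positivity)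

omit m0 in
lemma phi_eq (φ0 : Ω → ℝ) (B : ℕ → Set Ω) (D : ℝ) (n : ℕ) (x : Ω) :
    phi T φ0 B D n x = φ0 x - ∑ k ∈ Finset.range n, corr T φ0 B D k x
      + ∑ k ∈ Finset.range n, corr T φ0 B D k (T x) := by
  induction n with
  | zero => simp [phi]
  | succ n ih =>
    rw [phi_succ, ih, Finset.sum_range_succ, Finset.sum_range_succ]
    ring

omit m0 in
lemma sum_corr_lt (φ0 : Ω → ℝ) (B : ℕ → Set Ω) {D : ℝ} (hD : 0 < D) (n : ℕ) (x : Ω) :
    ∑ k ∈ Finset.range n, corr T φ0 B D k x ≤ 2 * D := by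
  calc ∑ k ∈ Finset.range n, corr T φ0 B D k x ≤ ∑ k ∈ Finset.range n, D / 2 ^ k :=
        Finset.sum_le_sum fun k _ => (corr_lt φ0 B hD k x).le
    _ = D * ∑ k ∈ Finset.range n, (1/2 : ℝ) ^ k := by
        rw [Finset.mul_sum]
        refine Finset.sum_congr rfl fun k _ => ?_
        rw [one_div, inv_pow]; ring
    _ ≤ D * 2 := by
        refine mul_le_mul_of_nonneg_left ?_ hD.le
        rw [geom_sum_eq (by norm_num)]
        have : (0:ℝ) ≤ (1/2) ^ n := by positivity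
        have h2 : ((1/2 : ℝ) ^ n - 1) / (1/2 - 1) = 2 * (1 - (1/2) ^ n) := by ring
        rw [h2]; linarith
    _ = 2 * D := by ring

omit m0 in
/-- Off `B n` the corrected cocycle has values in `(D/2^n) ℤ`. -/
lemma phi_succ_int (φ0 : Ω → ℝ) (B : ℕ → Set Ω) {D : ℝ} (hD : 0 < D) (n : ℕ) {x : Ω}
    (hx : x ∉ B n) (h : ∃ k, T^[k] x ∈ B n) :
    phi T φ0 B D (n+1) x = (D / 2 ^ n) *
      ((⌊blockSum T (phi T φ0 B D n) (B n) x / (D / 2 ^ n)⌋ -
        ⌊blockSum T (phi T φ0 B D n) (B n) (T x) / (D / 2 ^ n)⌋ : ℤ) : ℝ) := by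
  have hδ : 0 < D / 2 ^ n := by positivity
  rw [phi_succ]
  unfold corr
  rw [rho_eq _ _ _ hδ, rho_eq _ _ _ hδ]
  have h1 := blockSum_succ (phi T φ0 B D n) hx h
  push_cast
  linear_combination -h1

omit m0 in
/-- Off `B n` the cocycle is not changed any more after step `n+1`. -/
lemma phi_stable_step (φ0 : Ω → ℝ) (B : ℕ → Set Ω) {D : ℝ} (hD : 0 < D) (n : ℕ) {x : Ω}
    (hx : x ∉ B (n+1)) (h' : ∃ k, T^[k] x ∈ B (n+1)) {j : ℤ}
    (hj : phi T φ0 B D (n+1) x = (D / 2 ^ n) * j) :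
    phi T φ0 B D (n+2) x = phi T φ0 B D (n+1) x := by
  have hδ : 0 < D / 2 ^ (n+1) := by positivity
  rw [phi_succ]
  have h1 := blockSum_succ (phi T φ0 B D (n+1)) hx h'
  have h2 : corr T φ0 B D (n+1) x = corr T φ0 B D (n+1) (T x) := by
    unfold corr rho
    rw [h1, hj]
    congr 1
    have : (D / 2 ^ n * j + blockSum T (phi T φ0 B D (n+1)) (B (n+1)) (T x)) / (D / 2 ^ (n+1)) =
        ((2 * j : ℤ) : ℝ) + blockSum T (phi T φ0 B D (n+1)) (B (n+1)) (T x) / (D / 2 ^ (n+1)) := by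
      push_cast
      field_simp
      ring
    rw [this, add_comm, Int.fract_add_intCast]
  rw [h2]; ring

end Pool.Agent.Helper30.Bishop
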