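import Pool.Agent.Helper30.Bishop.Cohom

set_option autoImplicit false

open MeasureTheory Filter Topology
open scoped ENNReal

namespace Pool.Agent.Helper30.Bishop

lemma binEntropy_le_sqrt {p : ℝ} (h0 : 0 ≤ p) (h1 : p ≤ 1) :
    Real.binEntropy p ≤ 3 * Real.sqrt p := by
  rcases h0.eq_or_lt with rfl | hp
  · simp
  rw [Real.binEntropy_eq_negMulLog_add_negMulLog_one_sub]
  have hs : 0 < Real.sqrt p := Real.sqrt_pos.2 hp
  have hss : Real.sqrt p * Real.sqrt p = p := Real.mul_self_sqrt h0
  have h2 : Real.negMulLog p ≤ 2 * Real.sqrt p := by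
    have h3 := Real.log_le_sub_one_of_pos (inv_pos.2 hs)
    rw [Real.log_inv, Real.log_sqrt h0] at h3
    -- -(log p)/2 ≤ 1/√p - 1
    have h4 : -Real.log p ≤ 2 * (Real.sqrt p)⁻¹ := by linarith
    rw [Real.negMulLog]
    have h5 := mul_le_mul_of_nonneg_left h4 h0
    have h6 : p * (2 * (Real.sqrt p)⁻¹) = 2 * Real.sqrt p := by
      field_simp
      linarith [Real.sq_sqrt h0]
    linarith
  have h3 : Real.negMulLog (1 - p) ≤ p := by
    rcases h1.eq_or_lt with rfl | hp1
    · simp
    · have hq : 0 < 1 - p := by linarith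
      have h4 := Real.log_le_sub_one_of_pos (inv_pos.2 hq)
      rw [Real.log_inv] at h4
      rw [Real.negMulLog]
      have h5 := mul_le_mul_of_nonneg_left h4 hq.le
      have h6 : (1 - p) * ((1 - p)⁻¹ - 1) = p := by
        field_simp
        ring
      linarith
  have h4 : p ≤ Real.sqrt p := by
    have h5 : Real.sqrt p ≤ 1 := Real.sqrt_le_one.2 h1
    nlinarith
  linarith

/-- Lebesgue measure on the unit interval. -/
noncomputable abbrev m01 : Measure ℝ := volume.restrict (Set.Ioo (0:ℝ) 1)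

instance : IsProbabilityMeasure m01 := ⟨by simp⟩

/-- `min (log x) 0`. -/
noncomputable def ell (x : ℝ) : ℝ := min (Real.log x) 0

lemma measurable_ell : Measurable ell := Real.measurable_log.min measurable_const

lemma ell_nonpos (x : ℝ) : ell x ≤ 0 := min_le_right _ _

lemma ell_eq {x : ℝ} (hx : x ∈ Set.Ioo (0:ℝ) 1) : ell x = Real.log x :=
  min_eq_left (Real.log_nonpos hx.1.le hx.2.le)

lemma integrable_ell : Integrable ell m01 := by
  have h1 : Integrable Real.log m01 := by
    have := (intervalIntegral.intervalIntegrable_log' (a := 0) (b := 1))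
    rw [intervalIntegrable_iff_integrableOn_Ioo_of_le (by norm_num)] at this
    exact this
  exact h1.inf (integrable_const 0)

/-- The level of `x`. -/
noncomputable def lev (D x : ℝ) : ℕ := ⌊-ell x / D⌋₊

/-- The bounded part of the logarithm. -/
noncomputable def phi0 (D x : ℝ) : ℝ := ell x + D * lev D x

lemma measurable_lev (D : ℝ) : Measurable (lev D) :=
  Nat.measurable_floor.comp (measurable_ell.neg.div_const D)

lemma measurable_phi0 (D : ℝ) : Measurable (phi0 D) := by
  unfold phi0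
  refine measurable_ell.add (Measurable.const_mul ?_ D)
  exact (measurable_from_top (f := fun n : ℕ => (n : ℝ))).comp (measurable_lev D)

lemma phi0_nonpos {D : ℝ} (hD : 0 < D) (x : ℝ) : phi0 D x ≤ 0 := by
  unfold phi0 lev
  have h1 : (⌊-ell x / D⌋₊ : ℝ) ≤ -ell x / D :=
    Nat.floor_le (div_nonneg (by linarith [ell_nonpos x]) hD.le)
  have h2 := mul_le_mul_of_nonneg_left h1 hD.le
  have h3 : D * (-ell x / D) = - ell x := by field_simp
  linarith

lemma phi0_gt {D : ℝ} (hD : 0 < D) (x : ℝ) : -D < phi0 D x := by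
  unfold phi0 lev
  have h1 : -ell x / D < (⌊-ell x / D⌋₊ : ℝ) + 1 := Nat.lt_floor_add_one _
  have h2 := mul_lt_mul_of_pos_left h1 hD
  have h3 : D * (-ell x / D) = - ell x := by field_simp
  linarith

lemma phi0_ge_ell {D : ℝ} (hD : 0 < D) (x : ℝ) : ell x ≤ phi0 D x := by
  unfold phi0
  have : 0 ≤ D * (lev D x : ℝ) := by positivity
  linarith

/-- Measure of the level sets. -/
lemma measure_lev {D : ℝ} (hD : 0 < D) {j : ℕ} (hj : 1 ≤ j) :
    m01.real {x | j ≤ lev D x} ≤ Real.exp (-(j * D)) := by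
  have hsub : {x | j ≤ lev D x} ∩ Set.Ioo (0:ℝ) 1 ⊆ Set.Ioc (0:ℝ) (Real.exp (-(j * D))) := by
    rintro x ⟨hx, hx1⟩
    refine ⟨hx1.1, ?_⟩
    have h1 : j ≤ lev D x := hx
    unfold lev at h1
    rw [Nat.le_floor_iff' (by omega)] at h1
    rw [le_div_iff₀ hD, ell_eq hx1] at h1
    rw [← Real.log_le_iff_le_exp hx1.1]
    linarith
  have hm : MeasurableSet {x | j ≤ lev D x} := (measurable_lev D) measurableSet_Ici
  unfold m01 Measure.real
  rw [Measure.restrict_apply hm]
  refine (ENNReal.toReal_mono ?_ (measure_mono hsub)).trans ?_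
  · rw [Real.volume_Ioc]; exact ENNReal.ofReal_ne_top
  · rw [Real.volume_Ioc, sub_zero, ENNReal.toReal_ofReal (Real.exp_pos _).le]

/-- Almost every point visits a set of positive measure. -/
lemma ae_hits {T : ℝ → ℝ} (hT : Ergodic T m01) {B : Set ℝ} (hB : MeasurableSet B)
    (hpos : m01 B ≠ 0) : ∀ᵐ x ∂m01, ∃ k, T^[k] x ∈ B := by
  set H : Set ℝ := {x | ∃ k, T^[k] x ∈ B} with hH
  have hHeq : H = ⋃ k : ℕ, (T^[k]) ⁻¹' B := by
    ext x; simp [hH]
  have hHm : MeasurableSet H := by
    rw [hHeq]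
    exact MeasurableSet.iUnion fun k => (hT.measurable.iterate k) hB
  have hsub : T ⁻¹' H ⊆ H := by
    rintro x ⟨k, hk⟩
    exact ⟨k+1, by rw [Function.iterate_succ_apply]; exact hk⟩
  rcases hT.ae_empty_or_univ_of_preimage_ae_le hHm.nullMeasurableSet
    (Filter.Eventually.of_forall hsub) with h | h
  · exfalso
    have h1 : m01 H = 0 := by rw [measure_congr h]; simp
    have h2 : B ⊆ H := fun x hx => ⟨0, hx⟩
    exact hpos (measure_mono_null h2 h1)
  · have : ∀ᵐ x ∂m01, x ∈ H := by
      filter_upwards [h] with x hx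
      have : H x = Set.univ x := hx
      change H x
      rw [this]; trivial
    exact this

end Pool.Agent.Helper30.Bishop
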