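import Pool.Agent.Helper30.Bishop.Cohom2

set_option autoImplicit false

open MeasureTheory Filter Topology
open scoped ENNReal

namespace Pool.Agent.Helper30.Bishop

/-- The shrinking intervals. -/
noncomputable def bs (κ : ℝ) (n : ℕ) : ℝ := (κ / 4 ^ n) ^ 2

noncomputable def Bn (κ : ℝ) (n : ℕ) : Set ℝ := Set.Ioo 0 (bs κ n)

lemma bs_pos {κ : ℝ} (hκ : 0 < κ) (n : ℕ) : 0 < bs κ n := by unfold bs; positivity

lemma bs_anti {κ : ℝ} (hκ : 0 < κ) (n : ℕ) : bs κ (n+1) ≤ bs κ n := by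
  unfold bs
  have h1 : κ / 4 ^ (n+1) ≤ κ / 4 ^ n := by
    apply div_le_div_of_nonneg_left hκ.le (by positivity)
    exact pow_le_pow_right₀ (by norm_num) (Nat.le_succ n)
  exact pow_le_pow_left₀ (by positivity) h1 2

lemma Bn_anti {κ : ℝ} (hκ : 0 < κ) {n m : ℕ} (h : n ≤ m) : Bn κ m ⊆ Bn κ n := by
  have : Antitone (bs κ) := antitone_nat_of_succ_le (bs_anti hκ)
  intro x hx
  exact ⟨hx.1, hx.2.trans_le (this h)⟩

lemma exists_not_mem_Bn {κ : ℝ} {x : ℝ} (hx : 0 < x) : ∃ n, x ∉ Bn κ n := by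
  have h1 : Tendsto (fun n : ℕ => bs κ n) atTop (𝓝 0) := by
    have h2 : Tendsto (fun n : ℕ => κ * (1/4 : ℝ) ^ n) atTop (𝓝 (κ * 0)) :=
      (tendsto_pow_atTop_nhds_zero_of_lt_one (by norm_num) (by norm_num)).const_mul κ
    have h3 := h2.pow 2
    simp only [mul_zero, ne_eq, OfNat.ofNat_ne_zero, not_false_eq_true, zero_pow] at h3
    refine h3.congr fun n => ?_
    unfold bs
    rw [one_div, inv_pow]; rfl
  obtain ⟨n, hn⟩ := (h1.eventually (gt_mem_nhds hx)).exists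
  exact ⟨n, fun h => absurd h.2 (not_lt.2 hn.le)⟩

lemma measurable_Bn (κ : ℝ) (n : ℕ) : MeasurableSet (Bn κ n) := measurableSet_Ioo

lemma m01_Bn_ne {κ : ℝ} (hκ : 0 < κ) (n : ℕ) : m01 (Bn κ n) ≠ 0 := by
  unfold m01 Bn
  rw [Measure.restrict_apply measurableSet_Ioo, Set.Ioo_inter_Ioo, Real.volume_Ioo]
  simp only [ne_eq, ENNReal.ofReal_eq_zero, not_le, max_self]
  have := bs_pos hκ n
  simp only [sub_zero]
  exact lt_min this one_pos

lemma m01_Bn_le {κ : ℝ} (hκ : 0 < κ) (n : ℕ) : m01.real (Bn κ n) ≤ bs κ n := by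
  unfold m01 Bn Measure.real
  rw [Measure.restrict_apply measurableSet_Ioo, Set.Ioo_inter_Ioo, Real.volume_Ioo]
  have h0 := bs_pos hκ n
  rw [max_self, sub_zero, ENNReal.toReal_ofReal (le_min h0.le zero_le_one)]
  exact min_le_left _ _

/-- The corrected cocycles. -/
noncomputable def PP (T : ℝ → ℝ) (D κ : ℝ) (n : ℕ) : ℝ → ℝ := phi T (phi0 D) (Bn κ) D n

/-- The corrections. -/
noncomputable def CC (T : ℝ → ℝ) (D κ : ℝ) (n : ℕ) : ℝ → ℝ := corr T (phi0 D) (Bn κ) D n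

/-- The transfer function. -/
noncomputable def gg (T : ℝ → ℝ) (D κ : ℝ) (x : ℝ) : ℝ := - ∑' n, CC T D κ n x

/-- Good points. -/
def Good (T : ℝ → ℝ) (κ : ℝ) (x : ℝ) : Prop := x ∈ Set.Ioo (0:ℝ) 1 ∧ ∀ n, ∃ k, T^[k] x ∈ Bn κ n

variable {T : ℝ → ℝ} {D κ : ℝ}

lemma ae_good (hT : Ergodic T m01) (hκ : 0 < κ) : ∀ᵐ x ∂m01, Good T κ x := by
  have h1 : ∀ᵐ x ∂m01, x ∈ Set.Ioo (0:ℝ) 1 := ae_restrict_mem measurableSet_Ioo
  have h2 : ∀ᵐ x ∂m01, ∀ n, ∃ k, T^[k] x ∈ Bn κ n :=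
    ae_all_iff.2 fun n => ae_hits hT (measurable_Bn κ n) (m01_Bn_ne hκ n)
  filter_upwards [h1, h2] with x hx hx2 using ⟨hx, hx2⟩

lemma PP_succ (n : ℕ) (x : ℝ) : PP T D κ (n+1) x = PP T D κ n x - CC T D κ n x + CC T D κ n (T x) :=
  rfl

lemma CC_nonneg (hD : 0 < D) (n : ℕ) (x : ℝ) : 0 ≤ CC T D κ n x := corr_nonneg _ _ hD n x

lemma CC_lt (hD : 0 < D) (n : ℕ) (x : ℝ) : CC T D κ n x < D / 2 ^ n := corr_lt _ _ hD n x

lemma measurable_CC (hT : Measurable T) (n : ℕ) : Measurable (CC T D κ n) :=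
  measurable_corr hT (measurable_Bn κ) (measurable_phi0 D) D n

lemma measurable_PP (hT : Measurable T) (n : ℕ) : Measurable (PP T D κ n) :=
  measurable_phi hT (measurable_Bn κ) (measurable_phi0 D) D n

lemma PP_eq (n : ℕ) (x : ℝ) : PP T D κ n x = phi0 D x - ∑ k ∈ Finset.range n, CC T D κ k x
    + ∑ k ∈ Finset.range n, CC T D κ k (T x) := phi_eq _ _ _ _ _

lemma sum_CC_le (hD : 0 < D) (n : ℕ) (x : ℝ) : ∑ k ∈ Finset.range n, CC T D κ k x ≤ 2 * D :=
  sum_corr_lt _ _ hD n x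

lemma sum_CC_nonneg (hD : 0 < D) (n : ℕ) (x : ℝ) : 0 ≤ ∑ k ∈ Finset.range n, CC T D κ k x :=
  Finset.sum_nonneg fun k _ => CC_nonneg hD k x

lemma summable_CC (hD : 0 < D) (x : ℝ) : Summable fun n => CC T D κ n x :=
  summable_of_sum_range_le (fun n => CC_nonneg hD n x) fun n => sum_CC_le hD n x

lemma tsum_CC_le (hD : 0 < D) (x : ℝ) : ∑' n, CC T D κ n x ≤ 2 * D :=
  Real.tsum_le_of_sum_range_le (fun n => CC_nonneg hD n x) fun n => sum_CC_le hD n x

lemma abs_gg_le (hD : 0 < D) (x : ℝ) : |gg T D κ x| ≤ 2 * D := by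
  unfold gg
  rw [abs_neg, abs_of_nonneg (tsum_nonneg fun n => CC_nonneg hD n x)]
  exact tsum_CC_le hD x

lemma measurable_gg (hT : Measurable T) (hD : 0 < D) : Measurable (gg T D κ) := by
  refine Measurable.neg ?_
  refine measurable_of_tendsto_metrizable (f := fun N x => ∑ n ∈ Finset.range N, CC T D κ n x)
    (fun N => Finset.measurable_fun_sum _ fun n _ => measurable_CC hT n) ?_
  rw [tendsto_pi_nhds]
  intro x
  exact (summable_CC hD x).hasSum.tendsto_sum_nat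

lemma tendsto_PP (hD : 0 < D) (x : ℝ) :
    Tendsto (fun n => PP T D κ n x) atTop (𝓝 (phi0 D x + gg T D κ x - gg T D κ (T x))) := by
  have h1 := (summable_CC (T := T) (κ := κ) hD x).hasSum.tendsto_sum_nat
  have h2 := (summable_CC (T := T) (κ := κ) hD (T x)).hasSum.tendsto_sum_nat
  have h3 := ((tendsto_const_nhds (x := phi0 D x)).sub h1).add h2
  have h4 : phi0 D x + gg T D κ x - gg T D κ (T x) =
      phi0 D x - ∑' n, CC T D κ n x + ∑' n, CC T D κ n (T x) := by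
    unfold gg; ring
  rw [h4]
  refine h3.congr fun n => ?_
  rw [PP_eq]

lemma PP_bound (hD : 0 < D) (n : ℕ) (x : ℝ) : |PP T D κ n x| ≤ 3 * D := by
  rw [PP_eq, abs_le]
  have h1 := sum_CC_le (T := T) (κ := κ) hD n x
  have h2 := sum_CC_le (T := T) (κ := κ) hD n (T x)
  have h3 := sum_CC_nonneg (T := T) (κ := κ) hD n x
  have h4 := sum_CC_nonneg (T := T) (κ := κ) hD n (T x)
  have h5 := phi0_nonpos hD x
  have h6 := phi0_gt hD x
  constructor <;> linarith

lemma PP_int (hD : 0 < D) (n : ℕ) {x : ℝ} (hG : Good T κ x) (hx : x ∉ Bn κ n) :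
    ∃ j : ℤ, PP T D κ (n+1) x = D / 2 ^ n * j :=
  ⟨_, phi_succ_int _ _ hD n hx (hG.2 n)⟩

lemma PP_stable (hD : 0 < D) (hκ : 0 < κ) {n : ℕ} {x : ℝ} (hG : Good T κ x) (hx : x ∉ Bn κ n)
    {m : ℕ} (h : n ≤ m) : PP T D κ (m+1) x = PP T D κ (n+1) x := by
  induction m, h using Nat.le_induction with
  | base => rfl
  | succ m hm ih =>
    rw [← ih]
    have hxm : x ∉ Bn κ m := fun h => hx (Bn_anti hκ hm h)
    have hxm1 : x ∉ Bn κ (m+1) := fun h => hx (Bn_anti hκ (Nat.le_succ_of_le hm) h)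
    obtain ⟨j, hj⟩ := PP_int hD m hG hxm
    exact phi_stable_step _ _ hD m hxm1 (hG.2 (m+1)) hj

lemma PP_limit (hD : 0 < D) (hκ : 0 < κ) {n : ℕ} {x : ℝ} (hG : Good T κ x) (hx : x ∉ Bn κ n) :
    phi0 D x + gg T D κ x - gg T D κ (T x) = PP T D κ (n+1) x := by
  refine tendsto_nhds_unique (tendsto_PP hD x) ?_
  refine tendsto_const_nhds.congr' ?_
  filter_upwards [eventually_ge_atTop (n+1)] with m hm
  obtain ⟨m', rfl⟩ : ∃ m', m = m' + 1 := ⟨m-1, by omega⟩
  exact (PP_stable hD hκ hG hx (by omega)).symm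

/-- The corrected cocycle is `0` or `-D` off `B 0`. -/
lemma PP_one (hD : 0 < D) {x : ℝ} (hG : Good T κ x) (hx : x ∉ Bn κ 0) :
    PP T D κ 1 x = 0 ∨ PP T D κ 1 x = -D := by
  obtain ⟨j, hj⟩ := PP_int hD 0 hG hx
  have h1 : PP T D κ 1 x = phi0 D x - CC T D κ 0 x + CC T D κ 0 (T x) := PP_succ 0 x
  have h2 := CC_lt (T := T) (κ := κ) hD 0 x
  have h3 := CC_lt (T := T) (κ := κ) hD 0 (T x)
  have h4 := CC_nonneg (T := T) (κ := κ) hD 0 x
  have h5 := CC_nonneg (T := T) (κ := κ) hD 0 (T x)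
  have h6 := phi0_nonpos hD x
  have h7 := phi0_gt hD x
  simp only [zero_add, pow_zero, div_one] at hj h2 h3
  have h8 : D * (j:ℝ) < D * 1 := by rw [← hj]; linarith
  have h9 : D * (-2:ℝ) < D * j := by rw [← hj]; linarith
  have h10 : (j:ℝ) < 1 := lt_of_mul_lt_mul_left h8 hD.le
  have h11 : (-2:ℝ) < j := lt_of_mul_lt_mul_left h9 hD.le
  have h12 : j < 1 := by exact_mod_cast h10
  have h13 : -2 < j := by exact_mod_cast h11
  have h14 : j = 0 ∨ j = -1 := by omega
  rcases h14 with rfl | rfl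
  · left; rw [hj]; simp
  · right; rw [hj]; push_cast; ring

/-- The exceptional set off `B 0`. -/
def Kset (T : ℝ → ℝ) (D κ : ℝ) : Set ℝ := {x | x ∉ Bn κ 0 ∧ PP T D κ 1 x = -D}

lemma measurable_Kset (hT : Measurable T) : MeasurableSet (Kset T D κ) :=
  (measurable_Bn κ 0).compl.inter ((measurable_PP hT 1) (measurableSet_singleton _))

lemma measure_Kset (hT : Ergodic T m01) (hD : 0 < D) (hκ : 0 < κ) :
    m01.real (Kset T D κ) ≤ bs κ 0 + (∫ x, -ell x ∂m01) / D := by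
  have hTm := hT.measurable
  have hci : Integrable (CC T D κ 0) m01 := by
    refine Integrable.of_bound (measurable_CC hTm 0).aestronglyMeasurable D ?_
    refine Filter.Eventually.of_forall fun x => ?_
    have h2 := CC_lt (T := T) (κ := κ) hD 0 x
    have h4 := CC_nonneg (T := T) (κ := κ) hD 0 x
    rw [Real.norm_eq_abs, abs_of_nonneg h4]
    simpa using h2.le
  have hciT : Integrable (fun x => CC T D κ 0 (T x)) m01 :=
    (hT.toMeasurePreserving.integrable_comp hci.aestronglyMeasurable).2 hci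
  have hcieq : ∫ x, CC T D κ 0 (T x) ∂m01 = ∫ x, CC T D κ 0 x ∂m01 := by
    have h1 := integral_map (μ := m01) hTm.aemeasurable (f := CC T D κ 0)
      (by rw [hT.map_eq]; exact hci.aestronglyMeasurable)
    rw [hT.map_eq] at h1
    exact h1.symm
  have hphi : Integrable (phi0 D) m01 := by
    refine Integrable.of_bound (measurable_phi0 D).aestronglyMeasurable D ?_
    refine Filter.Eventually.of_forall fun x => ?_
    rw [Real.norm_eq_abs, abs_le]
    constructor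
    · linarith [phi0_gt hD x]
    · linarith [phi0_nonpos hD x]
  have hPint : Integrable (PP T D κ 1) m01 := by
    have : Integrable (fun x => phi0 D x - CC T D κ 0 x + CC T D κ 0 (T x)) m01 :=
      (hphi.sub hci).add hciT
    exact this
  have hPeq : ∫ x, PP T D κ 1 x ∂m01 = ∫ x, phi0 D x ∂m01 := by
    have h1 : ∫ x, PP T D κ 1 x ∂m01 =
        ∫ x, (phi0 D x - CC T D κ 0 x + CC T D κ 0 (T x)) ∂m01 := rfl
    have hs : Integrable (fun x => phi0 D x - CC T D κ 0 x) m01 := hphi.sub hci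
    rw [h1, integral_add hs hciT, integral_sub hphi hci, hcieq]
    ring
  -- upper bound for PP 1
  have hub : ∀ᵐ x ∂m01, PP T D κ 1 x ≤
      (Bn κ 0).indicator (fun _ => D) x + (Kset T D κ).indicator (fun _ => -D) x := by
    filter_upwards [ae_good hT hκ] with x hG
    by_cases hx : x ∈ Bn κ 0
    · have hxK : x ∉ Kset T D κ := fun h => h.1 hx
      rw [Set.indicator_of_mem hx, Set.indicator_of_notMem hxK]
      have h1 : PP T D κ 1 x = phi0 D x - CC T D κ 0 x + CC T D κ 0 (T x) := PP_succ 0 x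
      have h3 := CC_lt (T := T) (κ := κ) hD 0 (T x)
      have h4 := CC_nonneg (T := T) (κ := κ) hD 0 x
      have h6 := phi0_nonpos hD x
      simp only [pow_zero, div_one] at h3
      linarith
    · rw [Set.indicator_of_notMem hx]
      by_cases hxK : x ∈ Kset T D κ
      · rw [Set.indicator_of_mem hxK, hxK.2]; simp
      · rw [Set.indicator_of_notMem hxK]
        rcases PP_one hD hG hx with h | h
        · rw [h]; simp
        · exact absurd ⟨hx, h⟩ hxK
  have hKm := measurable_Kset (D := D) (κ := κ) hTm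
  have hi1 : Integrable ((Bn κ 0).indicator (fun _ => D)) m01 :=
    (integrable_const D).indicator (measurable_Bn κ 0)
  have hi2 : Integrable ((Kset T D κ).indicator (fun _ => -D)) m01 :=
    (integrable_const (-D)).indicator hKm
  have h1 : ∫ x, PP T D κ 1 x ∂m01 ≤ m01.real (Bn κ 0) * D - m01.real (Kset T D κ) * D := by
    refine (integral_mono_ae hPint (hi1.add hi2) hub).trans (le_of_eq ?_)
    have h2 : ∫ x, ((Bn κ 0).indicator (fun _ => D) + (Kset T D κ).indicator (fun _ => -D)) x ∂m01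
        = ∫ x, (Bn κ 0).indicator (fun _ => D) x ∂m01 +
          ∫ x, (Kset T D κ).indicator (fun _ => -D) x ∂m01 := integral_add hi1 hi2
    rw [h2, integral_indicator (measurable_Bn κ 0), integral_indicator hKm]
    simp only [integral_const, smul_eq_mul, measureReal_restrict_apply_univ]
    ring
  have h2 : ∫ x, ell x ∂m01 ≤ ∫ x, phi0 D x ∂m01 :=
    integral_mono integrable_ell hphi fun x => phi0_ge_ell hD x
  have h3 : ∫ x, -ell x ∂m01 = -∫ x, ell x ∂m01 := integral_neg _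
  have h4 := m01_Bn_le hκ 0
  rw [hPeq] at h1
  rw [h3]
  have h5 : m01.real (Kset T D κ) * D ≤ bs κ 0 * D + -∫ x, ell x ∂m01 := by
    have := mul_le_mul_of_nonneg_right h4 hD.le
    linarith
  have h6 : m01.real (Kset T D κ) ≤ (bs κ 0 * D + -∫ x, ell x ∂m01) / D := by
    rw [le_div_iff₀ hD]; exact h5
  refine h6.trans (le_of_eq ?_)
  field_simp

end Pool.Agent.Helper30.Bishop
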