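import Pool.Agent.Helper30.Bishop.Cohom3

set_option autoImplicit false

open MeasureTheory Filter Topology
open scoped ENNReal

namespace Pool.Agent.Helper30.Bishop

lemma measurable_psi_aux {α : Type*} [MeasurableSpace α] (l : α → ℕ)
    (hl : ∀ j, 1 ≤ j → MeasurableSet {x | j ≤ l x}) {K : Set α} (hK : MeasurableSet K)
    (Z : ℕ → ℕ → Set α) (hZ : ∀ n j, MeasurableSet (Z n j)) (v : ℕ → ℕ → ℝ) (M : ℕ → ℕ)
    (hd : ∀ x, ∃ n, ∀ m, m ≠ n → ∀ j, x ∉ Z m j) (D : ℝ) :
    Measurable (fun x => -D * (l x : ℝ) + K.indicator (fun _ => -D) x +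
      ∑' n, ∑ j ∈ Finset.range (M n), (Z n j).indicator (fun _ => v n j) x) := by
  have h1 : Measurable l := by
    refine measurable_of_Ici fun j => ?_
    rcases Nat.eq_zero_or_pos j with rfl | hj
    · have : l ⁻¹' Set.Ici 0 = Set.univ := by ext; simp
      rw [this]; exact MeasurableSet.univ
    · exact hl j hj
  have h2 : Measurable (fun x => (l x : ℝ)) := (measurable_from_top (f := fun n : ℕ => (n:ℝ))).comp h1
  have h3 : Measurable (fun x => ∑' n, ∑ j ∈ Finset.range (M n), (Z n j).indicator (fun _ => v n j) x) := by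
    refine measurable_of_tendsto_metrizable (f := fun N x => ∑ n ∈ Finset.range N,
      ∑ j ∈ Finset.range (M n), (Z n j).indicator (fun _ => v n j) x) (fun N => ?_) ?_
    · refine Finset.measurable_fun_sum _ fun n _ => Finset.measurable_fun_sum _ fun j _ => ?_
      exact measurable_const.indicator (hZ n j)
    · rw [tendsto_pi_nhds]
      intro x
      obtain ⟨n, hn⟩ := hd x
      have h4 : HasSum (fun n => ∑ j ∈ Finset.range (M n), (Z n j).indicator (fun _ => v n j) x)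
          (∑ j ∈ Finset.range (M n), (Z n j).indicator (fun _ => v n j) x) := by
        refine hasSum_single n fun m hm => ?_
        exact Finset.sum_eq_zero fun j _ => Set.indicator_of_notMem (hn m hm j) _
      have h5 := h4.tendsto_sum_nat
      rw [← h4.tsum_eq] at h5
      exact h5
  exact ((h2.const_mul (-D)).add (measurable_const.indicator hK)).add h3

/-- The events. -/
noncomputable def Zs (T : ℝ → ℝ) (D κ : ℝ) : ℕ → ℕ → Set ℝ
  | 0, j => if j = 0 then Kset T D κ else {x | j ≤ lev D x}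
  | (n+1), j => if j < 7 * 2 ^ (n+1) then {x | x ∈ Bn κ n ∧ x ∉ Bn κ (n+1) ∧
      PP T D κ (n+2) x = D / 2 ^ (n+1) * ((j:ℝ) - 3 * 2 ^ (n+1))} else ∅

/-- The events, as a sequence. -/
noncomputable def ZZ (T : ℝ → ℝ) (D κ : ℝ) (k : ℕ) : Set ℝ :=
  Zs T D κ (Nat.unpair k).1 (Nat.unpair k).2

variable {T : ℝ → ℝ} {D κ : ℝ}

lemma Zs_zero (j : ℕ) : Zs T D κ 0 j = if j = 0 then Kset T D κ else {x | j ≤ lev D x} := rfl

lemma Zs_succ (n j : ℕ) : Zs T D κ (n+1) j = if j < 7 * 2 ^ (n+1) then {x | x ∈ Bn κ n ∧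
    x ∉ Bn κ (n+1) ∧ PP T D κ (n+2) x = D / 2 ^ (n+1) * ((j:ℝ) - 3 * 2 ^ (n+1))} else ∅ := rfl

lemma measurableSet_Zs (hT : Measurable T) (n j : ℕ) : MeasurableSet (Zs T D κ n j) := by
  cases n with
  | zero =>
    rw [Zs_zero]
    split_ifs
    · exact measurable_Kset hT
    · exact (measurable_lev D) measurableSet_Ici
  | succ n =>
    rw [Zs_succ]
    split_ifs
    · exact (measurable_Bn κ n).inter ((measurable_Bn κ (n+1)).compl.inter
        ((measurable_PP hT (n+2)) (measurableSet_singleton _)))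
    · exact MeasurableSet.empty

lemma past_Zs (n j : ℕ) : MeasurableSet[past T (ZZ T D κ)] (Zs T D κ n j) := by
  have h := measurableSet_past_Z T (ZZ T D κ) (Nat.pair n j)
  unfold ZZ at h
  rw [Nat.unpair_pair] at h
  exact h

/-- The cohomologous function. -/
noncomputable def psi (T : ℝ → ℝ) (D κ : ℝ) (x : ℝ) : ℝ :=
  -D * (lev D x : ℝ) + (Kset T D κ).indicator (fun _ => -D) x +
    ∑' n, ∑ j ∈ Finset.range (7 * 2 ^ (n+1)), (Zs T D κ (n+1) j).indicator
      (fun _ => D / 2 ^ (n+1) * ((j:ℝ) - 3 * 2 ^ (n+1))) x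

lemma Zs_succ_sub (n j : ℕ) {x : ℝ} (hx : x ∈ Zs T D κ (n+1) j) :
    x ∈ Bn κ n ∧ x ∉ Bn κ (n+1) ∧ PP T D κ (n+2) x = D / 2 ^ (n+1) * ((j:ℝ) - 3 * 2 ^ (n+1)) := by
  rw [Zs_succ] at hx
  split_ifs at hx with h
  · exact hx
  · exact absurd hx (Set.notMem_empty x)

lemma Zs_unique (hκ : 0 < κ) {x : ℝ} {n m : ℕ} (hn : x ∈ Bn κ n ∧ x ∉ Bn κ (n+1))
    (hm : x ∈ Bn κ m ∧ x ∉ Bn κ (m+1)) : m = n := by
  by_contra hne
  rcases Nat.lt_or_gt_of_ne hne with h | h
  · exact hm.2 (Bn_anti hκ (by omega) hn.1)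
  · exact hn.2 (Bn_anti hκ (by omega) hm.1)

lemma measurable_psi (hκ : 0 < κ) : Measurable[past T (ZZ T D κ)] (psi T D κ) := by
  refine @measurable_psi_aux ℝ (past T (ZZ T D κ)) (lev D) (fun j hj => ?_) _ ?_
    (fun n j => Zs T D κ (n+1) j) (fun n j => past_Zs _ _)
    (fun n j => D / 2 ^ (n+1) * ((j:ℝ) - 3 * 2 ^ (n+1))) (fun n => 7 * 2 ^ (n+1)) ?_ D
  · have h := past_Zs (T := T) (D := D) (κ := κ) 0 j
    rw [Zs_zero, if_neg (by omega)] at h
    exact h
  · have h := past_Zs (T := T) (D := D) (κ := κ) 0 0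
    rw [Zs_zero, if_pos rfl] at h
    exact h
  · intro x
    by_cases hx : ∃ n, x ∈ Bn κ n ∧ x ∉ Bn κ (n+1)
    · obtain ⟨n, hn⟩ := hx
      refine ⟨n, fun m hm j hj => hm ?_⟩
      have h1 := Zs_succ_sub m j hj
      exact Zs_unique hκ hn ⟨h1.1, h1.2.1⟩
    · refine ⟨0, fun m _ j hj => hx ?_⟩
      have h1 := Zs_succ_sub m j hj
      exact ⟨m, h1.1, h1.2.1⟩

/-- The cohomological equation. -/
lemma log_cohom (hD : 0 < D) (hκ : 0 < κ) {x : ℝ} (hG : Good T κ x) :
    Real.log x + gg T D κ x - gg T D κ (T x) = psi T D κ x := by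
  have h0 : Real.log x = phi0 D x - D * (lev D x : ℝ) := by
    unfold phi0
    rw [ell_eq hG.1]; ring
  by_cases hx : x ∈ Bn κ 0
  · obtain ⟨n, hn, hn1⟩ : ∃ n, x ∈ Bn κ n ∧ x ∉ Bn κ (n+1) := by
      by_contra hcon
      push Not at hcon
      have : ∀ n, x ∈ Bn κ n := by
        intro n
        induction n with
        | zero => exact hx
        | succ n ih => exact hcon n ih
      obtain ⟨n, hn⟩ := exists_not_mem_Bn (κ := κ) hG.1.1
      exact hn (this n)
    have hK : x ∉ Kset T D κ := fun h => h.1 hx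
    have h1 := PP_limit hD hκ hG hn1
    obtain ⟨i, hi⟩ := PP_int hD (n+1) hG hn1
    have hb := PP_bound (T := T) (κ := κ) hD (n+2) x
    have hδ : 0 < D / 2 ^ (n+1) := by positivity
    have h3 : 3 * D = D / 2 ^ (n+1) * (3 * 2 ^ (n+1)) := by field_simp
    rw [show n + 1 + 1 = n + 2 from rfl] at hi h1
    rw [hi, abs_le, h3] at hb
    have h4 : (i:ℝ) ≤ 3 * 2 ^ (n+1) := le_of_mul_le_mul_left hb.2 hδ
    have h5 : -(3 * 2 ^ (n+1) : ℝ) ≤ i := by
      refine le_of_mul_le_mul_left (a := D / 2 ^ (n+1)) ?_ hδ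
      have := hb.1
      linarith
    have h4' : i ≤ 3 * 2 ^ (n+1) := by exact_mod_cast h4
    have h5' : -(3 * 2 ^ (n+1)) ≤ i := by exact_mod_cast h5
    obtain ⟨j, hj⟩ : ∃ j : ℕ, (j : ℤ) = i + 3 * 2 ^ (n+1) :=
      ⟨(i + 3 * 2 ^ (n+1)).toNat, Int.toNat_of_nonneg (by linarith)⟩
    have hjlt : j < 7 * 2 ^ (n+1) := by
      have h6 : (j:ℤ) ≤ 6 * 2 ^ (n+1) := by rw [hj]; linarith
      have h7 : (j:ℤ) ≤ ((6 * 2 ^ (n+1) : ℕ) : ℤ) := by push_cast; exact h6
      have h8 : j ≤ 6 * 2 ^ (n+1) := by exact_mod_cast h7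
      have h9 : 0 < 2 ^ (n+1) := by positivity
      omega
    have hjr : (j:ℝ) - 3 * 2 ^ (n+1) = i := by
      have h6 : ((j:ℤ):ℝ) = ((i + 3 * 2 ^ (n+1) : ℤ) : ℝ) := by rw [hj]
      push_cast at h6
      rw [h6]; ring
    have hxZ : x ∈ Zs T D κ (n+1) j := by
      rw [Zs_succ, if_pos hjlt]
      refine ⟨hn, hn1, ?_⟩
      rw [hjr, hi]
    have hsum : ∑' n, ∑ j ∈ Finset.range (7 * 2 ^ (n+1)), (Zs T D κ (n+1) j).indicator
        (fun _ => D / 2 ^ (n+1) * ((j:ℝ) - 3 * 2 ^ (n+1))) x = D / 2 ^ (n+1) * i := by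
      rw [(hasSum_single n ?_).tsum_eq]
      · rw [Finset.sum_eq_single j]
        · rw [Set.indicator_of_mem hxZ, hjr]
        · intro j' _ hj'
          refine Set.indicator_of_notMem (fun hc => hj' ?_) _
          have h6 := (Zs_succ_sub n j' hc).2.2
          rw [hi, ← hjr] at h6
          have h7 := mul_left_cancel₀ hδ.ne' h6
          have h8 : (j:ℝ) = j' := by linarith
          exact_mod_cast h8.symm
        · intro h
          exact absurd (Finset.mem_range.2 hjlt) h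
      · intro m hm
        refine Finset.sum_eq_zero fun j _ => Set.indicator_of_notMem (fun hc => hm ?_) _
        have h6 := Zs_succ_sub m j hc
        exact Zs_unique hκ ⟨hn, hn1⟩ ⟨h6.1, h6.2.1⟩
    unfold psi
    rw [hsum, Set.indicator_of_notMem hK, h0]
    rw [hi] at h1
    linarith
  · have h1 := PP_limit hD hκ hG hx
    have hsum : ∑' n, ∑ j ∈ Finset.range (7 * 2 ^ (n+1)), (Zs T D κ (n+1) j).indicator
        (fun _ => D / 2 ^ (n+1) * ((j:ℝ) - 3 * 2 ^ (n+1))) x = 0 := by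
      have : ∀ n, ∑ j ∈ Finset.range (7 * 2 ^ (n+1)), (Zs T D κ (n+1) j).indicator
          (fun _ => D / 2 ^ (n+1) * ((j:ℝ) - 3 * 2 ^ (n+1))) x = 0 := by
        intro n
        refine Finset.sum_eq_zero fun j _ => Set.indicator_of_notMem (fun hc => hx ?_) _
        exact Bn_anti hκ (Nat.zero_le n) (Zs_succ_sub n j hc).1
      simp [this]
    have h2 : PP T D κ (0+1) x = (Kset T D κ).indicator (fun _ => -D) x := by
      by_cases hxK : x ∈ Kset T D κ
      · rw [Set.indicator_of_mem hxK]; exact hxK.2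
      · rw [Set.indicator_of_notMem hxK]
        rcases PP_one hD hG hx with h | h
        · exact h
        · exact absurd ⟨hx, h⟩ hxK
    unfold psi
    rw [hsum, ← h2, h0, ← h1]
    ring

end Pool.Agent.Helper30.Bishop
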