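import Pool.Agent.Helper30.Bishop.Cohom4

set_option autoImplicit false

open MeasureTheory Filter Topology
open scoped ENNReal

namespace Pool.Agent.Helper30.Bishop

variable {T : ℝ → ℝ} {D κ : ℝ}

lemma binEntropy_m01_nonneg (s : Set ℝ) : 0 ≤ Real.binEntropy (m01.real s) :=
  Real.binEntropy_nonneg measureReal_nonneg measureReal_le_one

lemma binEntropy_m01_le (s : Set ℝ) {p : ℝ} (h : m01.real s ≤ p) :
    Real.binEntropy (m01.real s) ≤ 3 * Real.sqrt p := by
  refine (binEntropy_le_sqrt measureReal_nonneg measureReal_le_one).trans ?_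
  exact mul_le_mul_of_nonneg_left (Real.sqrt_le_sqrt h) (by norm_num)

lemma sum_row_succ (hκ : 0 < κ) {c : ℝ} (hκc : 168 * κ ≤ c) (n N : ℕ) :
    ∑ j ∈ Finset.range N, Real.binEntropy (m01.real (Zs T D κ (n+1) j)) ≤ c / 2 ^ (n+2) := by
  have h1 : ∀ j ∈ Finset.range N, Real.binEntropy (m01.real (Zs T D κ (n+1) j)) ≤
      if j < 7 * 2 ^ (n+1) then 3 * Real.sqrt (bs κ n) else 0 := by
    intro j _
    split_ifs with h
    · refine binEntropy_m01_le _ ((measureReal_mono (fun x hx => ?_)).trans (m01_Bn_le hκ n))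
      exact (Zs_succ_sub n j hx).1
    · rw [Zs_succ, if_neg h]; simp
  have hs : Real.sqrt (bs κ n) = κ / 4 ^ n := by
    unfold bs
    exact Real.sqrt_sq (by positivity)
  refine (Finset.sum_le_sum h1).trans ?_
  rw [← Finset.sum_filter, Finset.sum_const, nsmul_eq_mul, hs]
  have h2 : ((Finset.range N).filter (fun j => j < 7 * 2 ^ (n+1))).card ≤ 7 * 2 ^ (n+1) := by
    refine (Finset.card_le_card (t := Finset.range (7 * 2 ^ (n+1))) ?_).trans (by simp)
    intro j hj
    rw [Finset.mem_filter] at hj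
    exact Finset.mem_range.2 hj.2
  have h3 : (((Finset.range N).filter (fun j => j < 7 * 2 ^ (n+1))).card : ℝ) ≤ 7 * 2 ^ (n+1) := by
    exact_mod_cast h2
  have h4 : 0 ≤ 3 * (κ / 4 ^ n) := by positivity
  refine (mul_le_mul_of_nonneg_right h3 h4).trans ?_
  have h5 : (4:ℝ) ^ n = 2 ^ n * 2 ^ n := by rw [← mul_pow]; norm_num
  rw [h5, pow_add, pow_add]
  have h6 : (7 * (2 ^ n * 2 ^ 1) * (3 * (κ / (2 ^ n * 2 ^ n))) : ℝ) = 168 * κ / (2 ^ n * 2 ^ 2) := by
    field_simp
    norm_num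
  rw [h6]
  exact div_le_div_of_nonneg_right hκc (by positivity)

lemma sum_row_zero (hT : Ergodic T m01) (hD : 0 < D) (hκ : 0 < κ) {c : ℝ} (hc : 0 < c)
    (hκc : 168 * κ ≤ c) (hD1 : 4 ≤ D) (hD2 : 48 / c ≤ D)
    (hD3 : (∫ x, -ell x ∂m01) / D ≤ c ^ 2 / 288) (N : ℕ) :
    ∑ j ∈ Finset.range N, Real.binEntropy (m01.real (Zs T D κ 0 j)) ≤ c / 2 := by
  set q : ℝ := Real.exp (-(D/2)) with hq
  have hq0 : 0 < q := Real.exp_pos _
  have hqle : q ≤ 2 / D := by
    rw [hq, Real.exp_neg]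
    have h1 : D / 2 ≤ Real.exp (D/2) := by linarith [Real.add_one_le_exp (D/2)]
    calc (Real.exp (D/2))⁻¹ ≤ (D/2)⁻¹ := inv_anti₀ (by positivity) h1
      _ = 2 / D := by rw [inv_div]
  have hqhalf : q ≤ 1/2 := by
    refine hqle.trans ?_
    rw [div_le_div_iff₀ hD (by norm_num)]; linarith
  have hq6 : 6 * q ≤ c / 4 := by
    have h1 : 2 / D ≤ c / 24 := by
      rw [div_le_iff₀ hc] at hD2
      rw [div_le_div_iff₀ hD (by norm_num)]
      linarith
    linarith
  -- first term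
  have hK : Real.binEntropy (m01.real (Kset T D κ)) ≤ c / 4 := by
    have h1 := measure_Kset (κ := κ) hT hD hκ
    have h2 : bs κ 0 ≤ c ^ 2 / 288 := by
      unfold bs
      rw [pow_zero, div_one]
      have h3 : κ ≤ c / 168 := by linarith
      have h4 : κ ^ 2 ≤ (c / 168) ^ 2 := pow_le_pow_left₀ hκ.le h3 2
      have h5 : 0 ≤ c ^ 2 := by positivity
      nlinarith
    have h3 : m01.real (Kset T D κ) ≤ (c / 12) ^ 2 := by
      refine h1.trans ?_
      nlinarith
    have h4 := binEntropy_m01_le _ h3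
    rw [Real.sqrt_sq (by positivity)] at h4
    linarith
  have hlev : ∀ j : ℕ, Real.binEntropy (m01.real (Zs T D κ 0 (j+1))) ≤ 3 * q ^ (j+1) := by
    intro j
    rw [Zs_zero, if_neg (by omega)]
    have h1 := binEntropy_m01_le _ (measure_lev hD (j := j+1) (by omega))
    refine h1.trans (le_of_eq ?_)
    congr 1
    rw [hq, ← Real.exp_nat_mul, Real.sqrt_eq_iff_mul_self_eq (Real.exp_pos _).le (Real.exp_pos _).le,
      ← Real.exp_add]
    congr 1
    push_cast
    ring
  have hgeo : ∀ M : ℕ, ∑ j ∈ Finset.range M, 3 * q ^ (j+1) ≤ 6 * q := by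
    intro M
    have h1 : ∑ j ∈ Finset.range M, 3 * q ^ (j+1) = 3 * q * ∑ j ∈ Finset.range M, q ^ j := by
      rw [Finset.mul_sum]
      refine Finset.sum_congr rfl fun j _ => ?_
      ring
    rw [h1]
    have h2 : ∑ j ∈ Finset.range M, q ^ j ≤ 2 := by
      calc ∑ j ∈ Finset.range M, q ^ j ≤ ∑ j ∈ Finset.range M, (1/2:ℝ) ^ j :=
            Finset.sum_le_sum fun j _ => pow_le_pow_left₀ hq0.le hqhalf j
        _ ≤ 2 := by
          rw [geom_sum_eq (by norm_num)]
          have : (0:ℝ) ≤ (1/2) ^ M := by positivity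
          have h2 : ((1/2 : ℝ) ^ M - 1) / (1/2 - 1) = 2 * (1 - (1/2) ^ M) := by ring
          rw [h2]; linarith
    nlinarith
  cases N with
  | zero => simp; positivity
  | succ M =>
    rw [Finset.sum_range_succ']
    have h0 : Zs T D κ 0 0 = Kset T D κ := by rw [Zs_zero, if_pos rfl]
    rw [h0]
    have h1 := (Finset.sum_le_sum fun j (_ : j ∈ Finset.range M) => hlev j).trans (hgeo M)
    linarith

/-- The total entropy of the events is small. -/
lemma exists_small_entropy (hT : Ergodic T m01) {c : ℝ} (hc : 0 < c) :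
    ∃ D κ : ℝ, 0 < D ∧ 0 < κ ∧
      ∀ N, ∑ k ∈ Finset.range N, Real.binEntropy (m01.real (ZZ T D κ k)) ≤ c := by
  set C1 : ℝ := ∫ x, -ell x ∂m01 with hC1
  have hC1nn : 0 ≤ C1 := integral_nonneg fun x => by
    have := ell_nonpos x
    simp only [Pi.zero_apply]; linarith
  set D : ℝ := 4 + 48 / c + 288 * C1 / c ^ 2 with hDdef
  set κ : ℝ := c / 168 with hκdef
  have hκ : 0 < κ := by positivity
  have hκc : 168 * κ ≤ c := by rw [hκdef]; linarith
  have hp1 : 0 ≤ 48 / c := by positivity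
  have hp2 : 0 ≤ 288 * C1 / c ^ 2 := by positivity
  have hD1 : 4 ≤ D := by rw [hDdef]; linarith
  have hD : 0 < D := by linarith
  have hD2 : 48 / c ≤ D := by rw [hDdef]; linarith
  have hD3 : C1 / D ≤ c ^ 2 / 288 := by
    have h1 : 288 * C1 / c ^ 2 ≤ D := by rw [hDdef]; linarith
    rw [div_le_iff₀ (by positivity)] at h1
    rw [div_le_div_iff₀ hD (by norm_num)]
    linarith
  have hrow : ∀ n N : ℕ, ∑ j ∈ Finset.range N, Real.binEntropy (m01.real (Zs T D κ n j)) ≤
      c / 2 ^ (n+1) := by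
    intro n N
    cases n with
    | zero => simpa using sum_row_zero hT hD hκ hc hκc hD1 hD2 hD3 N
    | succ n => exact sum_row_succ hκ hκc n N
  refine ⟨D, κ, hD, hκ, fun N => ?_⟩
  have h1 : ∑ k ∈ Finset.range N, Real.binEntropy (m01.real (ZZ T D κ k)) =
      ∑ p ∈ (Finset.range N).image Nat.unpair, Real.binEntropy (m01.real (Zs T D κ p.1 p.2)) := by
    rw [Finset.sum_image]
    · rfl
    · intro a _ b _ hab
      rw [← Nat.pair_unpair a, ← Nat.pair_unpair b, hab]
  rw [h1]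
  have h2 : (Finset.range N).image Nat.unpair ⊆ Finset.range N ×ˢ Finset.range N := by
    intro p hp
    rw [Finset.mem_image] at hp
    obtain ⟨k, hk, rfl⟩ := hp
    rw [Finset.mem_range] at hk
    rw [Finset.mem_product, Finset.mem_range, Finset.mem_range]
    exact ⟨(Nat.unpair_left_le k).trans_lt hk, (Nat.unpair_right_le k).trans_lt hk⟩
  refine (Finset.sum_le_sum_of_subset_of_nonneg h2 fun p _ _ => binEntropy_m01_nonneg _).trans ?_
  rw [Finset.sum_product]
  refine (Finset.sum_le_sum fun n _ => hrow n N).trans ?_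
  have h3 : ∑ n ∈ Finset.range N, c / 2 ^ (n+1) = (c / 2) * ∑ n ∈ Finset.range N, (1/2:ℝ) ^ n := by
    rw [Finset.mul_sum]
    refine Finset.sum_congr rfl fun n _ => ?_
    rw [pow_succ, one_div, inv_pow]
    field_simp
  rw [h3, geom_sum_eq (by norm_num)]
  have h4 : (0:ℝ) ≤ (1/2) ^ N := by positivity
  have h5 : ((1/2 : ℝ) ^ N - 1) / (1/2 - 1) = 2 * (1 - (1/2) ^ N) := by ring
  rw [h5]
  nlinarith

/-- The cohomology theorem: the logarithm is cohomologous, with a bounded transfer function, to a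
function measurable with respect to the past of a sequence of sets of small total entropy. -/
theorem exists_cohom (hT : Ergodic T m01) {c : ℝ} (hc : 0 < c) :
    ∃ Z : ℕ → Set ℝ, (∀ k, MeasurableSet (Z k)) ∧
      (∀ N, ∑ k ∈ Finset.range N, Real.binEntropy (m01.real (Z k)) ≤ c) ∧
      ∃ g : ℝ → ℝ, Measurable g ∧ (∃ M : ℝ, ∀ x, |g x| ≤ M) ∧
      ∃ ψ : ℝ → ℝ, Measurable[past T Z] ψ ∧ ∀ᵐ x ∂m01, Real.log x + g x - g (T x) = ψ x := by
  obtain ⟨D, κ, hD, hκ, hsum⟩ := exists_small_entropy hT hc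
  refine ⟨ZZ T D κ, fun k => measurableSet_Zs hT.measurable _ _, hsum, gg T D κ,
    measurable_gg hT.measurable hD, ⟨2 * D, abs_gg_le hD⟩, psi T D κ, measurable_psi hκ, ?_⟩
  filter_upwards [ae_good hT hκ] with x hx using log_cohom hD hκ hx

end Pool.Agent.Helper30.Bishop
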