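import Mathlib

set_option autoImplicit false

open MeasureTheory Filter
open scoped ENNReal

namespace Pool.Agent.Helper30.Bishop

/-- Shannon entropy (natural logarithm) of a function with finitely many values. -/
noncomputable def shannon {Ω ι : Type*} [MeasurableSpace Ω] [Fintype ι] (μ : Measure Ω)
    (X : Ω → ι) : ℝ :=
  ∑ i, Real.negMulLog (μ.real (X ⁻¹' {i}))

/-- The `n`-name of a point: the values of `α` along the first `n` points of its orbit. -/
def names {Ω ι : Type*} (T : Ω → Ω) (α : Ω → ι) (n : ℕ) : Ω → (Fin n → ι) :=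
  fun x j => α (T^[(j : ℕ)] x)

/-- Entropy of `T` with respect to the finite partition given by the fibres of `α`:
the upper limit of `H (α ∨ T⁻¹ α ∨ … ∨ T^{-(n-1)} α) / n`. -/
noncomputable def entropyRate {Ω ι : Type*} [MeasurableSpace Ω] [Fintype ι] (μ : Measure Ω)
    (T : Ω → Ω) (α : Ω → ι) : ℝ≥0∞ :=
  limsup (fun n : ℕ => ENNReal.ofReal (shannon μ (names T α n) / n)) atTop

/-- Kolmogorov–Sinai entropy of `T` with respect to the measure `μ`: the supremum of the
entropies with respect to all finite measurable partitions. -/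
noncomputable def ksEntropy {Ω : Type*} [MeasurableSpace Ω] (μ : Measure Ω) (T : Ω → Ω) : ℝ≥0∞ :=
  ⨆ (r : ℕ) (α : Ω → Fin r) (_ : Measurable α), entropyRate μ T α

end Pool.Agent.Helper30.Bishop
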