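import Pool.Agent.Helper30.Bishop.Defs

set_option autoImplicit false

open MeasureTheory

namespace Pool.Agent.Helper30.Bishop

variable {Ω ι κ : Type*} [MeasurableSpace Ω]

lemma negMulLog_sum_le {s : Finset ι} {p : ι → ℝ} (h0 : ∀ i ∈ s, 0 ≤ p i) :
    Real.negMulLog (∑ i ∈ s, p i) ≤ ∑ i ∈ s, Real.negMulLog (p i) := by
  have key : ∀ i ∈ s, - (p i * Real.log (∑ j ∈ s, p j)) ≤ Real.negMulLog (p i) := by
    intro i hi
    rcases (h0 i hi).eq_or_lt with h | h
    · rw [← h]; simp
    · have h1 : p i ≤ ∑ j ∈ s, p j := Finset.single_le_sum h0 hi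
      have h2 := Real.log_le_log h h1
      unfold Real.negMulLog
      nlinarith
  calc Real.negMulLog (∑ i ∈ s, p i) = ∑ i ∈ s, - (p i * Real.log (∑ j ∈ s, p j)) := by
        rw [Finset.sum_neg_distrib, ← Finset.sum_mul]
        unfold Real.negMulLog; ring
    _ ≤ _ := Finset.sum_le_sum key

variable [Fintype ι] [Fintype κ]

/-- sum of measures of fibres -/
lemma measureReal_preimage_comp (μ : Measure Ω) [IsFiniteMeasure μ] {X : Ω → ι}
    (hX : ∀ i, MeasurableSet (X ⁻¹' {i})) (f : ι → κ) (k : κ) [DecidableEq κ] :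
    μ.real ((fun x => f (X x)) ⁻¹' {k}) = ∑ i ∈ Finset.univ.filter (fun i => f i = k), μ.real (X ⁻¹' {i}) := by
  have : (fun x => f (X x)) ⁻¹' {k} = ⋃ i ∈ Finset.univ.filter (fun i => f i = k), X ⁻¹' {i} := by
    ext x; simp
  rw [this, measureReal_biUnion_finset]
  · intro i _ j _ hij
    refine Set.disjoint_left.2 ?_
    intro x hx hy
    simp only [Set.mem_preimage, Set.mem_singleton_iff] at hx hy
    exact hij (hx.symm.trans hy)
  · intro i _; exact hX i

lemma shannon_comp_le (μ : Measure Ω) [IsFiniteMeasure μ] {X : Ω → ι}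
    (hX : ∀ i, MeasurableSet (X ⁻¹' {i})) (f : ι → κ) :
    shannon μ (fun x => f (X x)) ≤ shannon μ X := by
  classical
  unfold shannon
  calc ∑ k, Real.negMulLog (μ.real ((fun x => f (X x)) ⁻¹' {k}))
      = ∑ k, Real.negMulLog (∑ i ∈ Finset.univ.filter (fun i => f i = k), μ.real (X ⁻¹' {i})) := by
        refine Finset.sum_congr rfl fun k _ => ?_
        rw [measureReal_preimage_comp μ hX f k]
    _ ≤ ∑ k, ∑ i ∈ Finset.univ.filter (fun i => f i = k), Real.negMulLog (μ.real (X ⁻¹' {i})) := by
        refine Finset.sum_le_sum fun k _ => negMulLog_sum_le fun i _ => measureReal_nonneg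
    _ = _ := Finset.sum_fiberwise (s := Finset.univ) (g := f)
        (f := fun i => Real.negMulLog (μ.real (X ⁻¹' {i})))

lemma shannon_pair_le (μ : Measure Ω) [IsProbabilityMeasure μ] {X : Ω → ι} {Y : Ω → κ}
    (hX : ∀ i, MeasurableSet (X ⁻¹' {i})) (hY : ∀ i, MeasurableSet (Y ⁻¹' {i})) :
    shannon μ (fun x => (X x, Y x)) ≤ shannon μ X + shannon μ Y := by
  classical
  set p : ι → κ → ℝ := fun i k => μ.real ((fun x => (X x, Y x)) ⁻¹' {(i, k)}) with hp
  have hXY : ∀ z : ι × κ, MeasurableSet ((fun x => (X x, Y x)) ⁻¹' {z}) := by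
    rintro ⟨i, k⟩
    have : (fun x => (X x, Y x)) ⁻¹' {(i, k)} = X ⁻¹' {i} ∩ Y ⁻¹' {k} := by
      ext x; simp
    rw [this]; exact (hX i).inter (hY k)
  have hpn : ∀ i k, 0 ≤ p i k := fun i k => measureReal_nonneg
  have hpX : ∀ i, μ.real (X ⁻¹' {i}) = ∑ k, p i k := by
    intro i
    have := measureReal_preimage_comp μ hXY Prod.fst i
    simp only at this
    rw [show (fun x => X x) ⁻¹' {i} = X ⁻¹' {i} from rfl] at this
    rw [this]
    rw [show Finset.univ.filter (fun z : ι × κ => z.1 = i) = Finset.univ.image (fun k => (i, k)) by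
      ext ⟨a, b⟩; simp [eq_comm]]
    rw [Finset.sum_image]
    intro a _ b _ h; simpa using h
  have hpY : ∀ k, μ.real (Y ⁻¹' {k}) = ∑ i, p i k := by
    intro k
    have := measureReal_preimage_comp μ hXY Prod.snd k
    simp only at this
    rw [show (fun x => Y x) ⁻¹' {k} = Y ⁻¹' {k} from rfl] at this
    rw [this]
    rw [show Finset.univ.filter (fun z : ι × κ => z.2 = k) = Finset.univ.image (fun i => (i, k)) by
      ext ⟨a, b⟩; simp [eq_comm]]
    rw [Finset.sum_image]
    intro a _ b _ h; simpa using h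
  have htot : ∑ i, ∑ k, p i k = 1 := by
    have h1 : ∑ i, μ.real (X ⁻¹' {i}) = 1 := by
      have := measureReal_preimage_comp μ hX (fun _ => ()) ()
      simp at this
      simpa using this.symm
    rw [← h1]; exact Finset.sum_congr rfl fun i _ => (hpX i).symm
  set a : ι → ℝ := fun i => ∑ k, p i k with ha
  set b : κ → ℝ := fun k => ∑ i, p i k with hb
  have hb1 : ∑ k, b k = 1 := by rw [← htot, Finset.sum_comm]
  have ha1 : ∑ i, a i = 1 := htot
  have key : ∀ i k, Real.negMulLog (p i k) + p i k * Real.log (a i) + p i k * Real.log (b k)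
      ≤ a i * b k - p i k := by
    intro i k
    rcases (hpn i k).eq_or_lt with h | h
    · rw [← h]
      have h1 : 0 ≤ a i := Finset.sum_nonneg fun k _ => hpn i k
      have h2 : 0 ≤ b k := Finset.sum_nonneg fun i _ => hpn i k
      simp; positivity
    · have h1 : 0 < a i := lt_of_lt_of_le h (Finset.single_le_sum (f := fun k => p i k) (fun k _ => hpn i k) (Finset.mem_univ k))
      have h2 : 0 < b k := lt_of_lt_of_le h (Finset.single_le_sum (f := fun i => p i k) (fun i _ => hpn i k) (Finset.mem_univ i))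
      have h3 : Real.log (a i * b k / p i k) ≤ a i * b k / p i k - 1 :=
        Real.log_le_sub_one_of_pos (by positivity)
      rw [Real.log_div (by positivity) h.ne', Real.log_mul h1.ne' h2.ne'] at h3
      have h4 := mul_le_mul_of_nonneg_left h3 h.le
      have h5 : p i k * (a i * b k / p i k - 1) = a i * b k - p i k := by
        field_simp
      rw [h5] at h4
      unfold Real.negMulLog
      nlinarith
  have hsum := Finset.sum_le_sum fun i (_ : i ∈ Finset.univ) =>
    Finset.sum_le_sum fun k (_ : k ∈ Finset.univ) => key i k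
  have hR : ∑ i, ∑ k, (a i * b k - p i k) = 0 := by
    simp only [Finset.sum_sub_distrib]
    rw [htot]
    have : ∑ i, ∑ k, a i * b k = (∑ i, a i) * ∑ k, b k := by
      rw [Finset.sum_mul_sum]
    rw [this, ha1, hb1]; ring
  have hL : ∑ i, ∑ k, (Real.negMulLog (p i k) + p i k * Real.log (a i) + p i k * Real.log (b k))
      = shannon μ (fun x => (X x, Y x)) - shannon μ X - shannon μ Y := by
    simp only [Finset.sum_add_distrib]
    have e1 : ∑ i, ∑ k, Real.negMulLog (p i k) = shannon μ (fun x => (X x, Y x)) := by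
      unfold shannon
      rw [Fintype.sum_prod_type]
    have e2 : ∑ i, ∑ k, p i k * Real.log (a i) = - shannon μ X := by
      unfold shannon
      rw [← Finset.sum_neg_distrib]
      refine Finset.sum_congr rfl fun i _ => ?_
      rw [← Finset.sum_mul, hpX i]
      unfold Real.negMulLog; ring
    have e3 : ∑ i, ∑ k, p i k * Real.log (b k) = - shannon μ Y := by
      unfold shannon
      rw [Finset.sum_comm, ← Finset.sum_neg_distrib]
      refine Finset.sum_congr rfl fun k _ => ?_
      rw [← Finset.sum_mul, hpY k]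
      unfold Real.negMulLog; ring
    rw [e1, e2, e3]; ring
  rw [hR, hL] at hsum
  linarith

lemma shannon_comp_map (μ : Measure Ω) {T : Ω → Ω} (hT : MeasurePreserving T μ μ) {X : Ω → ι}
    (hX : ∀ i, MeasurableSet (X ⁻¹' {i})) :
    shannon μ (fun x => X (T x)) = shannon μ X := by
  unfold shannon
  refine Finset.sum_congr rfl fun i _ => ?_
  congr 1
  rw [show (fun x => X (T x)) ⁻¹' {i} = T ⁻¹' (X ⁻¹' {i}) from rfl]
  unfold Measure.real
  rw [hT.measure_preimage (hX i).nullMeasurableSet]

/-- If two finitely valued functions agree almost everywhere they have the same entropy. -/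
lemma shannon_congr (μ : Measure Ω) {X Y : Ω → ι} (h : X =ᵐ[μ] Y) : shannon μ X = shannon μ Y := by
  unfold shannon
  refine Finset.sum_congr rfl fun i _ => ?_
  congr 1
  unfold Measure.real
  congr 1
  refine measure_congr ?_
  filter_upwards [h] with x hx
  change (X x = i) = (Y x = i)
  rw [hx]

omit [Fintype ι] in
lemma measurableSet_preimage_pi {J : Type*} [Countable J] {X : J → Ω → ι}
    (hX : ∀ j i, MeasurableSet (X j ⁻¹' {i})) (v : J → ι) :
    MeasurableSet ((fun x j => X j x) ⁻¹' {v}) := by
  have : (fun x j => X j x) ⁻¹' {v} = ⋂ j, X j ⁻¹' {v j} := by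
    ext x
    simp [funext_iff]
  rw [this]
  exact MeasurableSet.iInter fun j => hX j (v j)

/-- Subadditivity of entropy for finite families (over `Fin n`). -/
lemma shannon_fin_le (μ : Measure Ω) [IsProbabilityMeasure μ] (n : ℕ) (X : Fin n → Ω → ι)
    (hX : ∀ j i, MeasurableSet (X j ⁻¹' {i})) :
    shannon μ (fun x j => X j x) ≤ ∑ j, shannon μ (X j) := by
  classical
  induction n with
  | zero =>
    simp only [Finset.univ_eq_empty, Finset.sum_empty]
    unfold shannon
    have : ∀ i : Fin 0 → ι, (fun x j => X j x) ⁻¹' {i} = Set.univ := by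
      intro i; ext x; simp [Subsingleton.elim (fun j => X j x) i]
    simp [this]
  | succ n ih =>
    rw [Fin.sum_univ_succ]
    have h1 := ih (fun j => X j.succ) (fun j i => hX j.succ i)
    have h2 := shannon_pair_le μ (X := X 0) (Y := fun x j => X (Fin.succ j) x) (hX 0)
      (measurableSet_preimage_pi fun j i => hX j.succ i)
    have h3 := shannon_comp_le μ (X := fun x => (X 0 x, fun j : Fin n => X j.succ x))
      (f := fun z : ι × (Fin n → ι) => (Fin.cons z.1 z.2 : Fin (n+1) → ι)) (by
        rintro ⟨i, v⟩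
        have : (fun x => (X 0 x, fun j : Fin n => X j.succ x)) ⁻¹' {(i, v)} =
            X 0 ⁻¹' {i} ∩ (fun x (j : Fin n) => X j.succ x) ⁻¹' {v} := by
          ext x; simp
        rw [this]
        exact (hX 0 i).inter (measurableSet_preimage_pi (fun j i => hX j.succ i) v))
    have h4 : (fun x => (Fin.cons (X 0 x) (fun j : Fin n => X j.succ x) : Fin (n+1) → ι)) =
        fun x j => X j x := by
      funext x
      funext j
      refine Fin.cases ?_ (fun j => ?_) j <;> simp
    simp only at h3
    rw [h4] at h3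
    linarith

/-- Subadditivity of entropy for finite families. -/
lemma shannon_pi_le (μ : Measure Ω) [IsProbabilityMeasure μ] {J : Type*} [Fintype J] [DecidableEq J]
    (X : J → Ω → ι)
    (hX : ∀ j i, MeasurableSet (X j ⁻¹' {i})) :
    shannon μ (fun x j => X j x) ≤ ∑ j, shannon μ (X j) := by
  classical
  set e := Fintype.equivFin J
  have h1 := shannon_fin_le μ (Fintype.card J) (fun k => X (e.symm k)) (fun k i => hX _ i)
  have h2 := shannon_comp_le μ (X := fun x (k : Fin (Fintype.card J)) => X (e.symm k) x)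
    (f := fun v j => v (e j)) (measurableSet_preimage_pi fun j i => hX _ i)
  simp only [Equiv.symm_apply_apply] at h2
  refine h2.trans (h1.trans (le_of_eq ?_))
  exact Equiv.sum_comp e.symm (fun j => shannon μ (X j))

end Pool.Agent.Helper30.Bishop
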