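import Pool.Agent.Helper30.Bishop.Entropy

set_option autoImplicit false

open MeasureTheory Filter Topology
open scoped ENNReal

namespace Pool.Agent.Helper30.Bishop

variable {Ω ι : Type*} [MeasurableSpace Ω]

open Classical in
/-- Boolean indicator of a set -/
noncomputable def ind (A : Set Ω) : Ω → Bool := fun x => decide (x ∈ A)

lemma measurableSet_ind {A : Set Ω} (hA : MeasurableSet A) (b : Bool) :
    MeasurableSet (ind A ⁻¹' {b}) := by
  cases b
  · have : ind A ⁻¹' {false} = Aᶜ := by ext x; simp [ind]
    rw [this]; exact hA.compl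
  · have : ind A ⁻¹' {true} = A := by ext x; simp [ind]
    rw [this]; exact hA

lemma shannon_ind (μ : Measure Ω) [IsProbabilityMeasure μ] {A : Set Ω} (hA : MeasurableSet A) :
    shannon μ (ind A) = Real.binEntropy (μ.real A) := by
  unfold shannon
  rw [Fintype.sum_bool]
  have h1 : ind A ⁻¹' {true} = A := by ext x; simp [ind]
  have h2 : ind A ⁻¹' {false} = Aᶜ := by ext x; simp [ind]
  rw [h1, h2, probReal_compl_eq_one_sub hA]
  rw [Real.binEntropy_eq_negMulLog_add_negMulLog_one_sub]

variable {T : Ω → Ω} {μ : Measure Ω}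

lemma measurableSet_iterate (hT : MeasurePreserving T μ μ) {X : Ω → ι}
    (hX : ∀ i, MeasurableSet (X ⁻¹' {i})) (n : ℕ) (i : ι) :
    MeasurableSet ((fun x => X (T^[n] x)) ⁻¹' {i}) :=
  (hT.measurable.iterate n) (hX i)

lemma shannon_iterate [Fintype ι] (hT : MeasurePreserving T μ μ) {X : Ω → ι}
    (hX : ∀ i, MeasurableSet (X ⁻¹' {i})) (n : ℕ) :
    shannon μ (fun x => X (T^[n] x)) = shannon μ X :=
  shannon_comp_map μ (hT.iterate n) hX

/-- The names of a partition are controlled by the names of its atoms. -/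
lemma shannon_names_le_sum [IsProbabilityMeasure μ] (hT : MeasurePreserving T μ μ) {r : ℕ}
    {α : Ω → Fin r} (hα : Measurable α) (n : ℕ) :
    shannon μ (names T α n) ≤ ∑ i, shannon μ (names T (ind (α ⁻¹' {i})) n) := by
  classical
  have hΩ : Nonempty Ω := nonempty_of_isProbabilityMeasure μ
  obtain ⟨x0⟩ := hΩ
  have : Nonempty (Fin n → Fin r) := ⟨names T α n x0⟩
  set g : (Fin n → Fin r) → (Fin r → Fin n → Bool) := fun w i j => decide (w j = i) with hg
  have hginj : Function.Injective g := by
    intro w w' h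
    funext j
    have := congrFun (congrFun h (w j)) j
    simp only [hg, decide_true] at this
    have h2 : w' j = w j := by simpa using this.symm
    exact h2.symm
  have hαm : ∀ i : Fin r, MeasurableSet (α ⁻¹' {i}) := fun i => hα (measurableSet_singleton i)
  have e1 : (fun x => g (names T α n x)) = fun x i => names T (ind (α ⁻¹' {i})) n x := by
    funext x i j
    simp only [hg, names, ind, Set.mem_preimage, Set.mem_singleton_iff]
    congr
  have hm : ∀ i v, MeasurableSet ((names T (ind (α ⁻¹' {i})) n) ⁻¹' {v}) := by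
    intro i v
    exact measurableSet_preimage_pi (fun (j : Fin n) b => measurableSet_iterate hT
      (measurableSet_ind (hαm i)) (j : ℕ) b) v
  have h1 := shannon_pi_le μ (fun i => names T (ind (α ⁻¹' {i})) n) hm
  have h2 := shannon_comp_le μ (X := fun x => g (names T α n x)) (f := Function.invFun g)
    (by rw [e1]; exact measurableSet_preimage_pi hm)
  have e2 : (fun x => Function.invFun g (g (names T α n x))) = names T α n := by
    funext x
    exact Function.leftInverse_invFun hginj _
  rw [e2] at h2
  rw [e1] at h2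
  exact h2.trans h1

/-- Names of `A` versus names of an approximation `B`. -/
lemma shannon_names_approx [IsProbabilityMeasure μ] (hT : MeasurePreserving T μ μ) {A B : Set Ω}
    (hA : MeasurableSet A) (hB : MeasurableSet B) (n : ℕ) :
    shannon μ (names T (ind A) n) ≤
      shannon μ (names T (ind B) n) + n * Real.binEntropy (μ.real (symmDiff A B)) := by
  classical
  have hm : ∀ (C : Set Ω) (hC : MeasurableSet C) v, MeasurableSet ((names T (ind C) n) ⁻¹' {v}) := by
    intro C hC v
    exact measurableSet_preimage_pi (fun (j : Fin n) b => measurableSet_iterate hT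
      (measurableSet_ind hC) (j : ℕ) b) v
  have hD : MeasurableSet (symmDiff A B) := hA.symmDiff hB
  have h1 := shannon_pair_le μ (hm B hB) (hm _ hD)
  have h2 := shannon_comp_le μ (X := fun x => (names T (ind B) n x, names T (ind (symmDiff A B)) n x))
    (f := fun z : (Fin n → Bool) × (Fin n → Bool) => fun j => xor (z.1 j) (z.2 j)) (by
      rintro ⟨v, w⟩
      have : (fun x => (names T (ind B) n x, names T (ind (symmDiff A B)) n x)) ⁻¹' {(v, w)} =
          (names T (ind B) n) ⁻¹' {v} ∩ (names T (ind (symmDiff A B)) n) ⁻¹' {w} := by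
        ext x; simp
      rw [this]
      exact (hm B hB v).inter (hm _ hD w))
  have e : (fun x => (fun z : (Fin n → Bool) × (Fin n → Bool) => fun j => xor (z.1 j) (z.2 j))
      (names T (ind B) n x, names T (ind (symmDiff A B)) n x)) = names T (ind A) n := by
    funext x j
    simp only [names, ind, Set.mem_symmDiff]
    by_cases h1 : T^[(j : ℕ)] x ∈ A <;> by_cases h2 : T^[(j : ℕ)] x ∈ B <;> simp [h1, h2]
  rw [e] at h2
  have h3 : shannon μ (names T (ind (symmDiff A B)) n) ≤
      n * Real.binEntropy (μ.real (symmDiff A B)) := by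
    have := shannon_fin_le μ n (fun j x => ind (symmDiff A B) (T^[(j : ℕ)] x))
      (fun j b => measurableSet_iterate hT (measurableSet_ind hD) j b)
    refine this.trans (le_of_eq ?_)
    have : ∀ j : Fin n, shannon μ (fun x => ind (symmDiff A B) (T^[(j : ℕ)] x)) =
        Real.binEntropy (μ.real (symmDiff A B)) := by
      intro j
      rw [shannon_iterate hT (measurableSet_ind hD), shannon_ind μ hD]
    simp [this]
  linarith

/-- The window map of a countable family of sets. -/
noncomputable def window (T : Ω → Ω) (Z : ℕ → Set Ω) (N : ℕ) : Ω → (Fin N × Fin N → Bool) :=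
  fun x p => ind (Z p.2) (T^[(p.1 : ℕ)] x)

lemma shannon_names_window_le [IsProbabilityMeasure μ] (hT : MeasurePreserving T μ μ)
    {Z : ℕ → Set Ω} (hZ : ∀ k, MeasurableSet (Z k)) (N : ℕ) (S : Set (Fin N × Fin N → Bool)) (n : ℕ)
    {c : ℝ} (hc : ∑ k ∈ Finset.range N, Real.binEntropy (μ.real (Z k)) ≤ c) :
    shannon μ (names T (ind (window T Z N ⁻¹' S)) n) ≤ (n + N) * c := by
  classical
  -- the big window
  have hbm : ∀ (p : Fin (n + N) × Fin N) (b : Bool),
      MeasurableSet ((fun x => ind (Z p.2) (T^[(p.1 : ℕ)] x)) ⁻¹' {b}) :=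
    fun p b => measurableSet_iterate hT (measurableSet_ind (hZ p.2)) p.1 b
  have h1 := shannon_pi_le μ (J := Fin (n + N) × Fin N)
    (fun p x => ind (Z p.2) (T^[(p.1 : ℕ)] x)) hbm
  have h2 := shannon_comp_le μ (X := fun x (p : Fin (n + N) × Fin N) => ind (Z p.2) (T^[(p.1 : ℕ)] x))
    (f := fun v => fun j : Fin n => decide ((fun q : Fin N × Fin N =>
      v (⟨(q.1 : ℕ) + j, by omega⟩, q.2)) ∈ S)) (measurableSet_preimage_pi hbm)
  have e : (fun x => (fun v : (Fin (n + N) × Fin N → Bool) => fun j : Fin n =>
      decide ((fun q : Fin N × Fin N => v (⟨(q.1 : ℕ) + j, by omega⟩, q.2)) ∈ S))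
      (fun p => ind (Z p.2) (T^[(p.1 : ℕ)] x))) = names T (ind (window T Z N ⁻¹' S)) n := by
    funext x j
    have hw : (fun q : Fin N × Fin N => ind (Z q.2) (T^[(q.1 : ℕ) + j] x)) =
        window T Z N (T^[(j : ℕ)] x) := by
      funext q
      simp only [window]
      rw [← Function.iterate_add_apply]
    change decide ((fun q : Fin N × Fin N => ind (Z q.2) (T^[(q.1 : ℕ) + j] x)) ∈ S) =
      @decide (window T Z N (T^[(j : ℕ)] x) ∈ S) (Classical.propDecidable _)
    rw [decide_eq_decide, hw]
  rw [e] at h2
  refine h2.trans (h1.trans ?_)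
  have : ∀ p : Fin (n + N) × Fin N, shannon μ (fun x => ind (Z p.2) (T^[(p.1 : ℕ)] x)) =
      Real.binEntropy (μ.real (Z p.2)) := by
    intro p
    rw [shannon_iterate hT (measurableSet_ind (hZ p.2)), shannon_ind μ (hZ p.2)]
  simp only [this]
  rw [Fintype.sum_prod_type]
  simp only [Finset.sum_const, Finset.card_univ, Fintype.card_fin, nsmul_eq_mul]
  rw [Fin.sum_univ_eq_sum_range (fun k => Real.binEntropy (μ.real (Z k))) N]
  push_cast
  exact mul_le_mul_of_nonneg_left hc (by positivity)

end Pool.Agent.Helper30.Bishop
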