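import Pool.Agent.Helper30.Bishop.Cohom5

set_option autoImplicit false

open MeasureTheory Filter Topology
open scoped ENNReal

namespace Pool.Agent.Helper30.Bishop

/-- The Hilbert space. -/
abbrev E01 : Type := Lp ℂ (2 : ENNReal) (volume.restrict (Set.Ioo (0:ℝ) 1))

lemma memLp_mul {w : ℝ → ℂ} (hw : Measurable w) {C : ℝ} (hC : ∀ x, ‖w x‖ ≤ C) {f : ℝ → ℂ}
    (hf : MemLp f 2 m01) : MemLp (fun x => w x * f x) 2 m01 := by
  refine hf.of_le_mul (c := C) (hw.aestronglyMeasurable.mul hf.aestronglyMeasurable) ?_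
  refine Filter.Eventually.of_forall fun x => ?_
  rw [norm_mul]
  exact mul_le_mul_of_nonneg_right (hC x) (norm_nonneg _)

/-- Multiplication by a bounded function. -/
noncomputable def mulL (w : ℝ → ℂ) (hw : Measurable w) (C : ℝ) (hC : ∀ x, ‖w x‖ ≤ C) :
    E01 →L[ℂ] E01 :=
  LinearMap.mkContinuous
    { toFun := fun f => (memLp_mul hw hC (Lp.memLp f)).toLp
      map_add' := fun f g => by
        apply Lp.ext
        filter_upwards [(memLp_mul hw hC (Lp.memLp (f + g))).coeFn_toLp,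
          (memLp_mul hw hC (Lp.memLp f)).coeFn_toLp, (memLp_mul hw hC (Lp.memLp g)).coeFn_toLp,
          Lp.coeFn_add f g, Lp.coeFn_add ((memLp_mul hw hC (Lp.memLp f)).toLp)
            ((memLp_mul hw hC (Lp.memLp g)).toLp)] with x h1 h2 h3 h4 h5
        rw [h1, h5, Pi.add_apply, h2, h3, h4, Pi.add_apply, mul_add]
      map_smul' := fun c f => by
        apply Lp.ext
        filter_upwards [(memLp_mul hw hC (Lp.memLp (c • f))).coeFn_toLp,
          (memLp_mul hw hC (Lp.memLp f)).coeFn_toLp,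
          Lp.coeFn_smul c f, Lp.coeFn_smul c ((memLp_mul hw hC (Lp.memLp f)).toLp)]
          with x h1 h2 h3 h4
        simp only [RingHom.id_apply]
        rw [h1, h4, Pi.smul_apply, h2, h3, Pi.smul_apply, smul_eq_mul, smul_eq_mul]
        ring }
    C
    (fun f => by
      refine Lp.norm_le_mul_norm_of_ae_le_mul ?_
      filter_upwards [(memLp_mul hw hC (Lp.memLp f)).coeFn_toLp] with x hx
      change ‖((memLp_mul hw hC (Lp.memLp f)).toLp : ℝ → ℂ) x‖ ≤ _
      rw [hx, norm_mul]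
      exact mul_le_mul_of_nonneg_right (hC x) (norm_nonneg _))

lemma mulL_coeFn (w : ℝ → ℂ) (hw : Measurable w) (C : ℝ) (hC : ∀ x, ‖w x‖ ≤ C) (f : E01) :
    (mulL w hw C hC f : ℝ → ℂ) =ᵐ[m01] fun x => w x * (f : ℝ → ℂ) x :=
  (memLp_mul hw hC (Lp.memLp f)).coeFn_toLp

section

variable {T : ℝ → ℝ} {Z : ℕ → Set ℝ} {g ψ : ℝ → ℝ}

/-- The weight `e^g`. -/
noncomputable def wt (g : ℝ → ℝ) (x : ℝ) : ℂ := ((Real.exp (g x) : ℝ) : ℂ)

lemma measurable_wt (hg : Measurable g) : Measurable (wt g) :=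
  Complex.measurable_ofReal.comp (Real.measurable_exp.comp hg)

lemma norm_wt_le {M : ℝ} (hM : ∀ x, |g x| ≤ M) (x : ℝ) : ‖wt g x‖ ≤ Real.exp M := by
  unfold wt
  rw [Complex.norm_real, Real.norm_eq_abs, abs_of_pos (Real.exp_pos _)]
  exact Real.exp_le_exp.2 ((le_abs_self _).trans (hM x))

lemma wt_ne (x : ℝ) : wt g x ≠ 0 := by
  unfold wt
  exact_mod_cast (Real.exp_pos _).ne'

/-- The subspace: functions `f` such that `e^g f` is measurable with respect to the past. -/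
noncomputable def VV (T : ℝ → ℝ) (Z : ℕ → Set ℝ) (g : ℝ → ℝ) (hg : Measurable g) (M : ℝ)
    (hM : ∀ x, |g x| ≤ M) : Submodule ℂ E01 :=
  (lpMeas ℂ ℂ (past T Z) 2 m01).comap (mulL (wt g) (measurable_wt hg) (Real.exp M) (norm_wt_le hM)).toLinearMap

lemma mem_VV (hg : Measurable g) {M : ℝ} (hM : ∀ x, |g x| ≤ M) (f : E01) :
    f ∈ VV T Z g hg M hM ↔ AEStronglyMeasurable[past T Z] (fun x => wt g x * (f : ℝ → ℂ) x) m01 := by
  unfold VV
  rw [Submodule.mem_comap, mem_lpMeas_iff_aestronglyMeasurable]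
  exact aestronglyMeasurable_congr (mulL_coeFn _ _ _ _ f)

lemma isClosed_VV (hT : Measurable T) (hZ : ∀ k, MeasurableSet (Z k)) (hg : Measurable g) {M : ℝ}
    (hM : ∀ x, |g x| ≤ M) : IsClosed (VV T Z g hg M hM : Set E01) := by
  have h1 : IsClosed {f : E01 | AEStronglyMeasurable[past T Z] (f : ℝ → ℂ) m01} :=
    isClosed_aestronglyMeasurable (past_le hT hZ)
  have h2 := h1.preimage (mulL (wt g) (measurable_wt hg) (Real.exp M) (norm_wt_le hM)).continuous
  convert h2 using 1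
  ext f
  rw [SetLike.mem_coe]
  unfold VV
  rw [Submodule.mem_comap, mem_lpMeas_iff_aestronglyMeasurable]
  rfl

lemma VV_ne_bot (hg : Measurable g) {M : ℝ} (hM : ∀ x, |g x| ≤ M) : VV T Z g hg M hM ≠ ⊥ := by
  have hMneg : ∀ x, |(-g) x| ≤ M := fun x => by rw [Pi.neg_apply, abs_neg]; exact hM x
  have hmem : MemLp (wt (-g)) 2 m01 := by
    refine MemLp.of_bound (measurable_wt hg.neg).aestronglyMeasurable (Real.exp M) ?_
    exact Filter.Eventually.of_forall fun x => norm_wt_le hMneg x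
  rw [Submodule.ne_bot_iff]
  refine ⟨hmem.toLp, ?_, ?_⟩
  · rw [mem_VV]
    have h1 : (fun x => wt g x * (hmem.toLp : ℝ → ℂ) x) =ᵐ[m01] fun _ => (1:ℂ) := by
      filter_upwards [hmem.coeFn_toLp] with x hx
      rw [hx]
      unfold wt
      rw [← Complex.ofReal_mul, ← Real.exp_add]
      simp
    exact (aestronglyMeasurable_congr h1).2 aestronglyMeasurable_const
  · intro h0
    have h1 : (hmem.toLp : ℝ → ℂ) =ᵐ[m01] 0 := by rw [h0]; exact Lp.coeFn_zero _ _ _
    have h2 : ∀ᵐ x ∂m01, False := by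
      filter_upwards [h1, hmem.coeFn_toLp] with x hx hx2
      rw [hx2] at hx
      exact wt_ne x hx
    rw [ae_iff] at h2
    simp at h2

lemma VV_invariant (hT : MeasurePreserving T m01 m01)
    (hg : Measurable g) {M : ℝ} (hM : ∀ x, |g x| ≤ M) (hψ : Measurable[past T Z] ψ)
    (hco : ∀ᵐ x ∂m01, Real.log x + g x - g (T x) = ψ x) (A : E01 →L[ℂ] E01)
    (hA : ∀ f : E01, (A f : ℝ → ℂ) =ᵐ[m01] fun x => (x : ℂ) * (f : ℝ → ℂ) (T x)) (f : E01)
    (hf : f ∈ VV T Z g hg M hM) : A f ∈ VV T Z g hg M hM := by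
  rw [mem_VV] at hf ⊢
  obtain ⟨h, hh, hfh⟩ := hf
  have h1 : (fun x => wt g x * (A f : ℝ → ℂ) x) =ᵐ[m01]
      fun x => ((Real.exp (ψ x) : ℝ) : ℂ) * h (T x) := by
    have h2 := hT.quasiMeasurePreserving.ae_eq_comp hfh
    have h3 : ∀ᵐ x ∂m01, x ∈ Set.Ioo (0:ℝ) 1 := ae_restrict_mem measurableSet_Ioo
    filter_upwards [hA f, h2, h3, hco] with x hx1 hx2 hx3 hx4
    simp only [Function.comp_apply] at hx2
    rw [hx1, ← hx2, ← hx4]
    unfold wt
    have h5 : Real.exp (Real.log x + g x - g (T x)) = x * Real.exp (g x) / Real.exp (g (T x)) := by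
      rw [Real.exp_sub, Real.exp_add, Real.exp_log hx3.1]
    rw [h5]
    have h6 : ((Real.exp (g (T x)) : ℝ) : ℂ) ≠ 0 := by exact_mod_cast (Real.exp_pos _).ne'
    push_cast
    push_cast at h6
    field_simp
  refine (aestronglyMeasurable_congr h1).2 ?_
  have h2 : StronglyMeasurable[past T Z] (fun x => h (T x)) := hh.comp_measurable (measurable_past_T T Z)
  have h3 : Measurable[past T Z] (fun x => ((Real.exp (ψ x) : ℝ) : ℂ)) :=
    Complex.measurable_ofReal.comp (Real.measurable_exp.comp hψ)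
  exact (h3.stronglyMeasurable.mul h2).aestronglyMeasurable

lemma sets_of_VV_eq_top (hg : Measurable g) {M : ℝ} (hM : ∀ x, |g x| ≤ M)
    (htop : VV T Z g hg M hM = ⊤) {S : Set ℝ} (hS : MeasurableSet S) :
    ∃ S' : Set ℝ, MeasurableSet[past T Z] S' ∧ S =ᵐ[m01] S' := by
  have hMneg : ∀ x, |(-g) x| ≤ M := fun x => by rw [Pi.neg_apply, abs_neg]; exact hM x
  have hmem : MemLp (S.indicator (wt (-g))) 2 m01 := by
    refine MemLp.of_bound ((measurable_wt hg.neg).indicator hS).aestronglyMeasurable (Real.exp M) ?_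
    refine Filter.Eventually.of_forall fun x => ?_
    refine (norm_indicator_le_norm_self _ _).trans (norm_wt_le hMneg x)
  have h0 : hmem.toLp ∈ VV T Z g hg M hM := by rw [htop]; trivial
  rw [mem_VV] at h0
  obtain ⟨h, hh, hfh⟩ := h0
  refine ⟨h ⁻¹' {1}, hh.measurable (measurableSet_singleton 1), ?_⟩
  filter_upwards [hfh, hmem.coeFn_toLp] with x hx1 hx2
  rw [hx2] at hx1
  have hiff : x ∈ S ↔ x ∈ h ⁻¹' {1} := by
    rw [Set.mem_preimage, Set.mem_singleton_iff, ← hx1]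
    by_cases hxS : x ∈ S
    · simp only [hxS, Set.indicator_of_mem, true_iff]
      unfold wt
      rw [← Complex.ofReal_mul, ← Real.exp_add]
      simp
    · simp [hxS]
  exact propext hiff

end

end Pool.Agent.Helper30.Bishop
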