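import Pool.Agent.Helper30.Bishop.Names

set_option autoImplicit false

open MeasureTheory Filter Topology
open scoped ENNReal

namespace Pool.Agent.Helper30.Bishop

variable {Ω : Type*} [m0 : MeasurableSpace Ω] {T : Ω → Ω} {μ : Measure Ω}

omit m0 in
/-- The σ-algebra generated by all sets `T^{-n} Z_k`. -/
@[instance_reducible] noncomputable def past (T : Ω → Ω) (Z : ℕ → Set Ω) : MeasurableSpace Ω :=
  ⨆ N, MeasurableSpace.comap (window T Z N) ⊤

omit m0 in
lemma window_restrict {N M : ℕ} (h : N ≤ M) (Z : ℕ → Set Ω) :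
    window T Z N = (fun v p => v (Fin.castLE h p.1, Fin.castLE h p.2)) ∘ window T Z M := by
  funext x p
  simp [window]

lemma measurableSet_window (hT : Measurable T) {Z : ℕ → Set Ω} (hZ : ∀ k, MeasurableSet (Z k))
    (N : ℕ) (S : Set (Fin N × Fin N → Bool)) : MeasurableSet (window T Z N ⁻¹' S) := by
  have h1 : Measurable (window T Z N) := by
    rw [measurable_pi_iff]
    intro p
    refine measurable_to_bool ?_
    exact (hT.iterate _) (measurableSet_ind (hZ p.2) true)
  exact h1 S.toFinite.measurableSet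

omit m0 in
lemma monotone_comap_window (T : Ω → Ω) (Z : ℕ → Set Ω) :
    Monotone fun N => MeasurableSpace.comap (window T Z N) ⊤ := by
  intro N M h
  simp only
  rw [window_restrict h Z, ← MeasurableSpace.comap_comp]
  exact MeasurableSpace.comap_mono le_top

lemma comap_window_le (hT : Measurable T) {Z : ℕ → Set Ω} (hZ : ∀ k, MeasurableSet (Z k)) (N : ℕ) :
    MeasurableSpace.comap (window T Z N) ⊤ ≤ m0 := by
  rintro s ⟨S, -, rfl⟩
  exact measurableSet_window hT hZ N S

lemma past_le (hT : Measurable T) {Z : ℕ → Set Ω} (hZ : ∀ k, MeasurableSet (Z k)) :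
    past T Z ≤ m0 := iSup_le fun N => comap_window_le hT hZ N

omit m0 in
lemma measurableSet_past_Z (T : Ω → Ω) (Z : ℕ → Set Ω) (k : ℕ) : MeasurableSet[past T Z] (Z k) := by
  have h : MeasurableSpace.comap (window T Z (k+1)) ⊤ ≤ past T Z :=
    le_iSup (fun N => MeasurableSpace.comap (window T Z N) ⊤) (k+1)
  apply h
  refine ⟨{v | v (0, Fin.last k) = true}, trivial, ?_⟩
  ext x
  have h2 : (ind (Z k) x = true) ↔ x ∈ Z k := by simp [ind]
  exact h2

omit m0 in
lemma measurable_past_T (T : Ω → Ω) (Z : ℕ → Set Ω) : Measurable[past T Z, past T Z] T := by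
  rw [measurable_iff_comap_le]
  unfold past
  rw [MeasurableSpace.comap_iSup]
  refine iSup_le fun N => ?_
  refine le_trans ?_ (le_iSup (fun N => MeasurableSpace.comap (window T Z N) ⊤) (N+1))
  rw [MeasurableSpace.comap_comp]
  have : window T Z N ∘ T = (fun v p => v (Fin.succ p.1, Fin.castSucc p.2)) ∘ window T Z (N+1) := by
    funext x p
    simp [window, Function.iterate_succ_apply]
  rw [this, ← MeasurableSpace.comap_comp]
  exact MeasurableSpace.comap_mono le_top

/-- Approximation of sets of the past by window sets. -/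
lemma exists_window_approx [IsProbabilityMeasure μ] (hT : Measurable T) {Z : ℕ → Set Ω}
    (hZ : ∀ k, MeasurableSet (Z k)) {A : Set Ω} (hA : MeasurableSet[past T Z] A) {δ : ℝ} (hδ : 0 < δ) :
    ∃ (N : ℕ) (S : Set (Fin N × Fin N → Bool)), μ.real (symmDiff A (window T Z N ⁻¹' S)) < δ := by
  classical
  set ℱ : Filtration ℕ m0 := ⟨fun N => MeasurableSpace.comap (window T Z N) ⊤,
    monotone_comap_window T Z, comap_window_le hT hZ⟩ with hℱ
  have hA0 : MeasurableSet A := past_le hT hZ A hA
  set g : Ω → ℝ := A.indicator (fun _ => (1:ℝ)) with hg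
  have hgi : Integrable g μ := (integrable_const (1:ℝ)).indicator hA0
  have hgm : StronglyMeasurable[⨆ n, ℱ n] g := by
    have : Measurable[past T Z] g := by
      exact Measurable.indicator (m := past T Z) measurable_const hA
    exact this.stronglyMeasurable
  have hconv := hgi.tendsto_ae_condExp hgm
  set B : ℕ → Set Ω := fun n => {x | (1:ℝ)/2 < (μ[g | ℱ n]) x} with hB
  have hBm : ∀ n, MeasurableSet[ℱ n] (B n) := by
    intro n
    exact measurableSet_lt (@measurable_const _ _ _ (ℱ n) _) stronglyMeasurable_condExp.measurable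
  have hlim : ∀ᵐ x ∂μ, ∀ᶠ n in atTop, (x ∈ symmDiff A (B n) ↔ x ∈ (∅ : Set Ω)) := by
    filter_upwards [hconv] with x hx
    by_cases hxA : x ∈ A
    · have h1 : g x = 1 := by simp [hg, hxA]
      rw [h1] at hx
      filter_upwards [hx.eventually (lt_mem_nhds (show (1:ℝ)/2 < 1 by norm_num))] with n hn
      simp only [Set.mem_symmDiff, Set.mem_empty_iff_false, iff_false, not_or, not_and, not_not]
      exact ⟨fun _ => hn, fun _ => hxA⟩
    · have h1 : g x = 0 := by simp [hg, hxA]
      rw [h1] at hx
      filter_upwards [hx.eventually (gt_mem_nhds (show (0:ℝ) < 1/2 by norm_num))] with n hn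
      simp only [Set.mem_symmDiff, Set.mem_empty_iff_false, iff_false, not_or, not_and, not_not]
      exact ⟨fun h => absurd h hxA, fun h => absurd hn (not_lt.2 (le_of_lt h))⟩
  have hlim2 := tendsto_measure_of_ae_tendsto_indicator_of_isFiniteMeasure (μ := μ) atTop
    MeasurableSet.empty (As := fun n => symmDiff A (B n))
    (fun n => hA0.symmDiff (ℱ.le n _ (hBm n))) hlim
  rw [measure_empty] at hlim2
  have hev := hlim2.eventually (gt_mem_nhds (show (0:ℝ≥0∞) < ENNReal.ofReal δ by simpa using hδ))
  obtain ⟨N, hN⟩ := hev.exists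
  obtain ⟨S, -, hS⟩ := hBm N
  refine ⟨N, S, ?_⟩
  rw [hS]
  unfold Measure.real
  exact (ENNReal.toReal_lt_of_lt_ofReal hN)

/-- If every measurable set belongs (mod null sets) to the past of a family `Z` of small entropy,
then the Kolmogorov–Sinai entropy with respect to partitions into `r` sets is small. -/
lemma shannon_names_le_of_past [IsProbabilityMeasure μ] (hT : MeasurePreserving T μ μ)
    {Z : ℕ → Set Ω} (hZ : ∀ k, MeasurableSet (Z k)) {c : ℝ}
    (hc : ∀ N, ∑ k ∈ Finset.range N, Real.binEntropy (μ.real (Z k)) ≤ c)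
    {A A' : Set Ω} (hA : MeasurableSet A) (hA' : MeasurableSet[past T Z] A') (hAA' : A =ᵐ[μ] A')
    {ε : ℝ} (hε : 0 < ε) :
    ∃ C : ℝ, ∀ n : ℕ, shannon μ (names T (ind A) n) ≤ n * (c + ε) + C := by
  -- continuity of binary entropy at 0
  have hcont : Tendsto Real.binEntropy (𝓝 0) (𝓝 0) := by
    have := Real.binEntropy_continuous.tendsto 0
    simpa using this
  obtain ⟨δ, hδ, hδε⟩ := Metric.tendsto_nhds_nhds.1 hcont ε hε
  obtain ⟨N, S, hNS⟩ := exists_window_approx (μ := μ) hT.measurable hZ hA' hδ
  have hWm : MeasurableSet (window T Z N ⁻¹' S) := measurableSet_window hT.measurable hZ N S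
  have hsd : μ.real (symmDiff A (window T Z N ⁻¹' S)) = μ.real (symmDiff A' (window T Z N ⁻¹' S)) := by
    unfold Measure.real
    congr 1
    exact measure_congr (hAA'.symmDiff (ae_eq_refl _))
  refine ⟨N * c, fun n => ?_⟩
  have h1 := shannon_names_approx hT hA hWm n
  have h2 := shannon_names_window_le hT hZ N S n (hc N)
  have h3 : Real.binEntropy (μ.real (symmDiff A (window T Z N ⁻¹' S))) ≤ ε := by
    rw [hsd]
    have := hδε (x := μ.real (symmDiff A' (window T Z N ⁻¹' S))) (by
      rw [Real.dist_eq, sub_zero, abs_of_nonneg measureReal_nonneg]; exact hNS)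
    rw [Real.dist_eq, sub_zero] at this
    exact (le_abs_self _).trans this.le
  have h4 := mul_le_mul_of_nonneg_left h3 (Nat.cast_nonneg (α := ℝ) n)
  nlinarith

end Pool.Agent.Helper30.Bishop
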